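import Mathlib

/-!
# Chow groups of schemes

The group of cycles with rational coefficients on a scheme modulo rational equivalence, all
dimensions together, and the products of schemes over a field.
-/

set_option autoImplicit false

open CategoryTheory AlgebraicGeometry Limits

namespace Pool.Agent.U724.CH

universe u

/-- The cycle `c` with rational coefficients on the scheme `X` (a point stands for its closure) is
the divisor of a rational function `f ≠ 0` on an integral closed subscheme `W` of `X`. -/
def IsDivisor (X : Scheme.{u}) (c : X →₀ ℚ) : Prop :=
  ∃ (W : Scheme.{u}) (i : W ⟶ X) (_ : IsClosedImmersion i) (_ : IsIntegral W)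
    (_ : IsLocallyNoetherian W) (f : W.functionField), f ≠ 0 ∧
      (∀ z : W, c (i z) = (Scheme.ord f z : ℚ)) ∧ ∀ x : X, x ∉ Set.range i → c x = 0

/-- The Chow group of a scheme `X` of finite type over a field with rational coefficients: the
cycles on `X`, of all dimensions, modulo rational equivalence, that is, modulo the divisors of the
rational functions on the integral closed subschemes. -/
def Chow (X : Scheme.{u}) : Type u :=
  (X →₀ ℚ) ⧸ Submodule.span ℚ {c : X →₀ ℚ | IsDivisor X c}

noncomputable instance (X : Scheme.{u}) : AddCommGroup (Chow X) :=
  Submodule.Quotient.addCommGroup _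

noncomputable instance (X : Scheme.{u}) : Module ℚ (Chow X) :=
  Submodule.Quotient.module _

/-- The schemes over the field `k`. -/
abbrev Sch (k : Type u) [Field k] : Type (u + 1) := Over (Spec (CommRingCat.of k))

/-- The spectrum of `k` as a scheme over `k`. -/
noncomputable abbrev pt (k : Type u) [Field k] : Sch k := Over.mk (𝟙 _)

/-- The product `X ×_k Y`. -/
noncomputable abbrev prod {k : Type u} [Field k] (X Y : Sch k) : Sch k :=
  Over.mk (pullback.fst X.hom Y.hom ≫ X.hom)

/-- The power `X ^ n` over `k`. -/
noncomputable def power {k : Type u} [Field k] (X : Sch k) : ℕ → Sch k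
  | 0 => pt k
  | n + 1 => prod (power X n) X

end Pool.Agent.U724.CH
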