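import Pool.Agent.U724.CH.Kim
import Pool.Agent.U724.BB.Weak

/-!
# Filtrations of Bloch–Beilinson type on the Chow groups
-/

set_option autoImplicit false

open CategoryTheory AlgebraicGeometry Limits MonoidalCategory Module Filter
open Pool.Agent.Y112.SR Pool.Agent.Y112.KD Pool.Agent.N64.AF Pool.Agent.U724.PH
open Pool.Agent.U724.NT Pool.Agent.U724.BB
open scoped ENNReal

namespace Pool.Agent.U724.CH

universe u u' v w t x y

variable {k : Type u} [Field k] {C : Type u'} [Category.{v} C] [Preadditive C]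
  [MonoidalCategory C] [SymmetricCategory C] [Linear ℚ C]

/-- The action of a morphism of motives (a correspondence) on the Chow groups. -/
noncomputable def Motives.push (M : Motives k C) {X Y : Sch k} (hX : M.IsVar X)
    (hY : M.IsVar Y) (f : M.h X ⟶ M.h Y) (z : Chow X.left) : Chow Y.left :=
  M.cycles Y hY ((M.cycles X hX).symm z ≫ f)

/-- The exterior product of cycles. -/
noncomputable def Motives.ext (M : Motives k C) {X Y : Sch k} (hX : M.IsVar X)
    (hY : M.IsVar Y) (z : Chow X.left) (w : Chow Y.left) : Chow (prod X Y).left :=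
  M.cycles _ (M.isVar_prod X Y hX hY) ((λ_ (𝟙_ C)).inv ≫
    ((M.cycles X hX).symm z ⊗ₘ (M.cycles Y hY).symm w) ≫ (M.hprod X Y hX hY).inv)

variable {K : Type w} [Field K]

/-- A descending filtration of the Chow groups of all varieties, with the first step given by the
homologically trivial cycles, preserved by all correspondences and multiplicative for exterior
products. -/
structure Motives.Filtration (M : Motives k C) (R : SuperRealisation C K) where
  /-- the steps -/
  F : ℕ → ∀ X : Sch k, M.IsVar X → Submodule ℚ (Chow X.left)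
  zero (X : Sch k) (hX : M.IsVar X) : F 0 X hX = ⊤
  one (X : Sch k) (hX : M.IsVar X) : F 1 X hX = M.homTriv R hX
  anti (i : ℕ) (X : Sch k) (hX : M.IsVar X) : F (i + 1) X hX ≤ F i X hX
  push (i : ℕ) (X Y : Sch k) (hX : M.IsVar X) (hY : M.IsVar Y) (f : M.h X ⟶ M.h Y)
    (z : Chow X.left) : z ∈ F i X hX → M.push hX hY f z ∈ F i Y hY
  ext (i j : ℕ) (X Y : Sch k) (hX : M.IsVar X) (hY : M.IsVar Y) (z : Chow X.left)
    (w : Chow Y.left) : z ∈ F i X hX → w ∈ F j Y hY →
      M.ext hX hY z w ∈ F (i + j) (prod X Y) (M.isVar_prod X Y hX hY)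

/-- The intersection of all steps of the filtration. -/
noncomputable def Motives.Filtration.inf {M : Motives k C} {R : SuperRealisation C K} (G : M.Filtration R)
    {X : Sch k} (hX : M.IsVar X) : Submodule ℚ (Chow X.left) :=
  ⨅ i, G.F i X hX

/-- The filtration extended to all objects. -/
noncomputable def Motives.Filtration.all {M : Motives k C} {R : SuperRealisation C K} (G : M.Filtration R)
    (i : ℕ) (Z : C) : Submodule ℚ (𝟙_ C ⟶ Z) where
  carrier := {α | ∀ (Y : Sch k) (hY : M.IsVar Y) (f : Z ⟶ M.h Y),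
    M.cycles Y hY (α ≫ f) ∈ G.F i Y hY}
  zero_mem' := fun Y hY f => by
    rw [zero_comp, map_zero]
    exact Submodule.zero_mem _
  add_mem' := fun {a b} ha hb Y hY f => by
    rw [Preadditive.add_comp, map_add]
    exact Submodule.add_mem _ (ha Y hY f) (hb Y hY f)
  smul_mem' := fun c a ha Y hY f => by
    rw [Linear.smul_comp, map_smul]
    exact Submodule.smul_mem _ _ (ha Y hY f)

lemma Motives.Filtration.mem_all {M : Motives k C} {R : SuperRealisation C K}
    (G : M.Filtration R) {X : Sch k} (hX : M.IsVar X) {Z : C} (e : Z ≅ M.h X) {i : ℕ}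
    {α : 𝟙_ C ⟶ Z} : α ∈ G.all i Z ↔ M.cycles X hX (α ≫ e.hom) ∈ G.F i X hX := by
  constructor
  · intro h
    exact h X hX e.hom
  · intro h Y hY f
    have h1 := G.push i X Y hX hY (e.inv ≫ f) _ h
    unfold Motives.push at h1
    rw [LinearEquiv.symm_apply_apply] at h1
    simpa using h1

variable [MonoidalPreadditive C] [MonoidalLinear ℚ C] [RightRigidCategory C] [Algebra ℚ K]

/-- Homologically trivial correspondences move the filtration by one step. -/
lemma Motives.Filtration.shift {M : Motives k C} {R : SuperRealisation C K}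
    (G : M.Filtration R) {X Y : Sch k} (hX : M.IsVar X) (hY : M.IsVar Y) {f : M.h X ⟶ M.h Y}
    (hf : R.H.map f = 0) {i : ℕ} {z : Chow X.left} (hz : z ∈ G.F i X hX) :
    M.push hX hY f z ∈ G.F (i + 1) Y hY := by
  let _ := M.dual X hX
  set γ : 𝟙_ C ⟶ M.h (prod X Y) := η_ (M.h X) (M.h X) ≫ (M.h X ◁ f) ≫ (M.hprod X Y hX hY).inv
    with hγ
  have hγ0 : R.H.map γ = 0 := by
    have h1 : R.H.map (M.h X ◁ f) = 0 := by
      rw [Functor.Monoidal.map_whiskerLeft, hf]
      simp
    rw [hγ, R.H.map_comp, R.H.map_comp, h1, zero_comp, comp_zero]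
  have h1 : M.cycles _ (M.isVar_prod X Y hX hY) γ ∈ G.F 1 _ (M.isVar_prod X Y hX hY) := by
    rw [G.one, M.mem_homTriv, LinearEquiv.symm_apply_apply]
    exact hγ0
  have h2 := G.ext i 1 X (prod X Y) hX (M.isVar_prod X Y hX hY) z _ hz h1
  set g : M.h (prod X (prod X Y)) ⟶ M.h Y :=
    (M.hprod X (prod X Y) hX (M.isVar_prod X Y hX hY)).hom ≫
      (M.h X ◁ (M.hprod X Y hX hY).hom) ≫ (α_ _ _ _).inv ≫ (ε_ (M.h X) (M.h X) ▷ M.h Y) ≫
      (λ_ (M.h Y)).hom with hg
  have h3 := G.push (i + 1) _ Y (M.isVar_prod X _ hX (M.isVar_prod X Y hX hY)) hY g _ h2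
  convert h3 using 1
  unfold Motives.push Motives.ext
  rw [LinearEquiv.symm_apply_apply, LinearEquiv.symm_apply_apply]
  congr 1
  rw [hg, hγ]
  set α := (M.cycles X hX).symm z
  simp only [Category.assoc, Iso.inv_hom_id_assoc]
  have h4 : (α ⊗ₘ (η_ (M.h X) (M.h X) ≫ M.h X ◁ f ≫ (M.hprod X Y hX hY).inv)) ≫
      M.h X ◁ (M.hprod X Y hX hY).hom = α ▷ 𝟙_ C ≫ M.h X ◁ η_ (M.h X) (M.h X) ≫
        M.h X ◁ M.h X ◁ f := by
    rw [MonoidalCategory.tensorHom_def, Category.assoc, ← MonoidalCategory.whiskerLeft_comp]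
    simp
  rw [reassoc_of% h4]
  have h5 : M.h X ◁ M.h X ◁ f ≫ (α_ (M.h X) (M.h X) (M.h Y)).inv =
      (α_ (M.h X) (M.h X) (M.h X)).inv ≫ (M.h X ⊗ M.h X) ◁ f := by simp
  have h6 : (M.h X ⊗ M.h X) ◁ f ≫ ε_ (M.h X) (M.h X) ▷ M.h Y =
      ε_ (M.h X) (M.h X) ▷ M.h X ≫ 𝟙_ C ◁ f := whisker_exchange _ _
  rw [reassoc_of% h5, reassoc_of% h6]
  have h7 := ExactPairing.coevaluation_evaluation (M.h X) (M.h X)
  rw [reassoc_of% h7]
  have h8 : (λ_ (𝟙_ C)).inv ≫ (ρ_ (𝟙_ C)).hom = 𝟙 _ := by rw [← unitors_equal, Iso.inv_hom_id]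
  simp only [Iso.inv_hom_id_assoc, rightUnitor_naturality_assoc, id_whiskerLeft, Category.assoc,
    Iso.inv_hom_id, Category.comp_id]
  rw [reassoc_of% h8]

lemma Motives.Filtration.dim_inf {M : Motives k C} {R : SuperRealisation C K}
    (G : M.Filtration R) {X : Sch k} (hX : M.IsVar X) {Z : C} (i : Z ≅ M.h X) :
    dimE ℚ (infG G.all Z) = dimE ℚ (G.inf hX) ∧ (infG G.all Z = ⊥ ↔ G.inf hX = ⊥) := by
  let e : (𝟙_ C ⟶ Z) ≃ₗ[ℚ] Chow X.left :=
    (Linear.homCongr ℚ (Iso.refl _) i) ≪≫ₗ M.cycles X hX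
  have he : ∀ f, e f = M.cycles X hX (f ≫ i.hom) := by
    intro f
    simp [e, Linear.homCongr]
  have h1 : (infG G.all Z).map (e : (𝟙_ C ⟶ Z) →ₗ[ℚ] Chow X.left) = G.inf hX := by
    ext z
    constructor
    · rintro ⟨f, hf, rfl⟩
      refine (Submodule.mem_iInf _).2 fun j => ?_
      have h2 := (G.mem_all hX i).1 (mem_infG.1 hf j)
      rw [← he] at h2
      exact h2
    · intro hz
      refine ⟨e.symm z, mem_infG.2 fun j => ?_, e.apply_symm_apply z⟩
      rw [G.mem_all hX i, ← he, e.apply_symm_apply]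
      exact (Submodule.mem_iInf _).1 hz j
  refine ⟨dimE_congr ((e.submoduleMap (infG G.all Z)).trans (LinearEquiv.ofEq _ _ h1)), ?_⟩
  rw [← h1]
  exact (Submodule.map_eq_bot_iff (e := e)).symm

/-- The law for the intersection of all steps. -/
theorem Motives.Filtration.law [IsIdempotentComplete C] [IsAlgClosed K] {M : Motives k C}
    {R : SuperRealisation C K} (G : M.Filtration R) {X : Sch k} (hX : M.IsVar X)
    (hne : Nonempty X.left) (hs : R.CPlus (M.h X))
    (hG : ∀ n, ∃ l, ∀ i, l ≤ i →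
      G.F i _ (M.isVar_power hX n) = G.F l _ (M.isVar_power hX n)) :
    ∃ N : ℕ∞, HasLaw ℚ (M.h X) (fun n => dimE ℚ (G.inf (M.isVar_power hX n))) N ∧
      (N = 0 ↔ ∀ n, G.inf (M.isVar_power hX n) = ⊥) ∧
      (∀ m n : ℕ, 128 * (m + 1) ^ 2 * M.betti R X ^ (2 * m + 6) ≤ n →
        2 * dimE ℚ (G.inf (M.isVar_power hX n)) < numRank ℚ (tp (M.h X) n) →
        G.inf (M.isVar_power hX m) = ⊥) ∧
      (N ≠ ⊤ → (∀ m, M.HomNilp R (power X m)) ∧ Pool.Agent.R905.IsKimuraFinite (M.h X)) := by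
  let _ := M.dual X hX
  have h := M.isPow hX hne hs
  have hfil : IsFil R (M.h X) G.all :=
    { zero := by
        intro Z
        rw [eq_top_iff]
        intro α _ Y hY f
        rw [G.zero]
        exact Submodule.mem_top
      anti := by
        intro i Z α hα Y hY f
        exact G.anti i Y hY (hα Y hY f)
      stab := by
        intro i Y Z f α hα W hW g
        rw [Category.assoc]
        exact hα W hW (f ≫ g)
      shift := by
        intro i n f α hf hα
        rw [G.mem_all (M.isVar_power hX n) (M.hpow hX n)] at hα ⊢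
        have h1 := G.shift (M.isVar_power hX n) (M.isVar_power hX n)
          (f := (M.hpow hX n).inv ≫ f ≫ (M.hpow hX n).hom)
          (by rw [R.H.map_comp, R.H.map_comp, hf, zero_comp, comp_zero]) hα
        unfold Motives.push at h1
        rw [LinearEquiv.symm_apply_apply] at h1
        simpa using h1
      stat := by
        intro n
        obtain ⟨l, hl⟩ := hG n
        refine ⟨l, fun i hi => ?_⟩
        ext α
        rw [G.mem_all (M.isVar_power hX n) (M.hpow hX n),
          G.mem_all (M.isVar_power hX n) (M.hpow hX n), hl i hi] }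
  obtain ⟨N, h1, h2, h3, h4⟩ := filtration_law' h hfil
  have hd : ∀ n, dimE ℚ (infG G.all (tp (M.h X) n)) = dimE ℚ (G.inf (M.isVar_power hX n)) :=
    fun n => (G.dim_inf (M.isVar_power hX n) (M.hpow hX n)).1
  have hb : ∀ n, infG G.all (tp (M.h X) n) = ⊥ ↔ G.inf (M.isVar_power hX n) = ⊥ :=
    fun n => (G.dim_inf (M.isVar_power hX n) (M.hpow hX n)).2
  simp_rw [hd] at h1 h3
  simp_rw [hb] at h2 h3
  refine ⟨N, h1, h2, h3, fun hN => ⟨fun m => nil_iso (M.hpow hX m) ((h4 hN).1 m), (h4 hN).2⟩⟩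

end Pool.Agent.U724.CH
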