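import Pool.Agent.U724.CH.Ker
import Pool.Agent.U724.PH.Consti

/-!
# The law for the cycles on the powers which are generated by a space of cycles
-/

set_option autoImplicit false
set_option linter.unusedSectionVars false

open CategoryTheory AlgebraicGeometry Limits MonoidalCategory Module Filter
open Pool.Agent.Y112.SR Pool.Agent.Y112.KD Pool.Agent.N64.AF Pool.Agent.U724.PH
open Pool.Agent.U724.NT
open scoped ENNReal

namespace Pool.Agent.U724.CH

universe u u' v w t x y

variable {k : Type u} [Field k] {C : Type u'} [Category.{v} C] [Preadditive C]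
  [MonoidalCategory C] [SymmetricCategory C] [Linear ℚ C] {K : Type w} [Field K]

/-- The space of the cycles on `X ^ n` which are sums of images of elements of `V` under
correspondences from `X` to `X ^ n`. -/
noncomputable def Motives.gen (M : Motives k C) {X : Sch k} (hX : M.IsVar X)
    (V : Submodule ℚ (Chow X.left)) (n : ℕ) : Submodule ℚ (Chow (power X n).left) :=
  Submodule.span ℚ {w | ∃ z ∈ V, ∃ g : M.h X ⟶ M.h (power X n),
    w = M.cycles (power X n) (M.isVar_power hX n) ((M.cycles X hX).symm z ≫ g)}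

/-- The elements of `Hom (1, Z)` generated by the space `V` of elements of `Hom (1, Y)`. -/
def genAll {Y : C} (V : Submodule ℚ (𝟙_ C ⟶ Y)) (Z : C) : Submodule ℚ (𝟙_ C ⟶ Z) :=
  Submodule.span ℚ {β | ∃ α ∈ V, ∃ g : Y ⟶ Z, β = α ≫ g}

lemma genAll_stab {Y : C} (V : Submodule ℚ (𝟙_ C ⟶ Y)) :
    IsStab (homF ℚ (𝟙_ C)) (genAll V) := by
  intro A B f
  refine Submodule.span_le.2 ?_
  rintro _ ⟨α, hα, g, rfl⟩
  change (α ≫ g) ≫ f ∈ genAll V B
  refine Submodule.subset_span ⟨α, hα, g ≫ f, ?_⟩
  rw [Category.assoc]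

variable [MonoidalPreadditive C] [RightRigidCategory C]

/-- The self-correspondence `f` of `X` is modulo numerical equivalence the sum of the simple parts
`e i` of ranks `r i`. -/
structure Motives.IsDecomp (M : Motives k C) (R : SuperRealisation C K) {X : Sch k}
    (hX : M.IsVar X) (f : Chow (prod X X).left) {s : ℕ} (e : Fin s → Chow (prod X X).left)
    (r : Fin s → ℕ) : Prop where
  simple : ∀ i, M.IsSimplePart R hX (e i) (r i)
  sum : NumTriv (M.corr hX hX f - ∑ i, M.corr hX hX (e i))

variable [MonoidalLinear ℚ C] [Algebra ℚ K] [IsAlgClosed K]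

/-- The law. -/
theorem Motives.gen_law (M : Motives k C) (R : SuperRealisation C K) {X : Sch k}
    (hX : M.IsVar X) (hne : Nonempty X.left) (hs : R.CPlus (M.h X))
    (V : Submodule ℚ (Chow X.left)) :
    ∃ N : ℕ∞, HasLaw ℚ (M.h X) (fun n => dimE ℚ (M.gen hX V n)) N ∧ (N = 0 ↔ V = ⊥) ∧
      ∀ (s : ℕ) (f : Chow (prod X X).left) (e : Fin s → Chow (prod X X).left)
        (r : Fin s → ℕ), M.IsDecomp R hX f e r →
        (∀ z ∈ V, M.push hX hX (M.corr hX hX f) z = z) → N ≠ ⊤ → (∀ i, N < r i) → V = ⊥ := by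
  let _ := M.dual X hX
  have h := M.isPow (R := R) hX hne hs
  let V' : Submodule ℚ (𝟙_ C ⟶ M.h X) := V.comap (M.cycles X hX).toLinearMap
  have hV' : ∀ α, α ∈ V' ↔ M.cycles X hX α ∈ V := fun α => Iff.rfl
  obtain ⟨N, h1, h2, h3⟩ := constituent_law h (sub (homF ℚ (𝟙_ C)) (genAll V') (genAll_stab V'))
  have hd : ∀ n, dimE ℚ ((sub (homF ℚ (𝟙_ C)) (genAll V') (genAll_stab V')).obj
      (tp (M.h X) n)) = dimE ℚ (M.gen hX V n) := by
    intro n
    let i : tp (M.h X) n ≅ M.h (power X n) := M.hpow hX n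
    let e : (𝟙_ C ⟶ tp (M.h X) n) ≃ₗ[ℚ] Chow (power X n).left :=
      (Linear.homCongr ℚ (Iso.refl _) i) ≪≫ₗ M.cycles (power X n) (M.isVar_power hX n)
    have he : ∀ f, e f = M.cycles (power X n) (M.isVar_power hX n) (f ≫ i.hom) := by
      intro f
      simp [e, Linear.homCongr]
    have h4 : (genAll V' (tp (M.h X) n)).map
        (e : (𝟙_ C ⟶ tp (M.h X) n) →ₗ[ℚ] Chow (power X n).left) = M.gen hX V n := by
      unfold genAll Motives.gen
      rw [Submodule.map_span]
      congr 1
      ext w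
      constructor
      · rintro ⟨_, ⟨α, hα, g, rfl⟩, rfl⟩
        refine ⟨M.cycles X hX α, hα, g ≫ i.hom, ?_⟩
        change e (α ≫ g) = _
        rw [he, LinearEquiv.symm_apply_apply, Category.assoc]
      · rintro ⟨z, hz, g, rfl⟩
        refine ⟨(M.cycles X hX).symm z ≫ (g ≫ i.inv),
          ⟨(M.cycles X hX).symm z, ?_, g ≫ i.inv, rfl⟩, ?_⟩
        · rw [hV', LinearEquiv.apply_symm_apply]
          exact hz
        · change e _ = _
          rw [he, Category.assoc, Category.assoc, i.inv_hom_id, Category.comp_id]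
    exact dimE_congr ((e.submoduleMap (genAll V' (tp (M.h X) n))).trans
      (LinearEquiv.ofEq _ _ h4))
  have hbot : V = ⊥ ↔ V' = ⊥ := by
    constructor
    · intro hV
      rw [eq_bot_iff]
      intro α hα
      have h4 : M.cycles X hX α ∈ V := hα
      rw [hV, Submodule.mem_bot] at h4
      exact (Submodule.mem_bot ℚ).2 ((M.cycles X hX).injective (by rw [h4, map_zero]))
    · intro hV
      rw [eq_bot_iff]
      intro z hz
      have h4 : (M.cycles X hX).symm z ∈ V' := by
        rw [hV', LinearEquiv.apply_symm_apply]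
        exact hz
      rw [hV, Submodule.mem_bot] at h4
      exact (Submodule.mem_bot ℚ).2 ((M.cycles X hX).symm.injective (by rw [h4, map_zero]))
  let i : tp (M.h X) 1 ≅ M.h X := λ_ (M.h X)
  refine ⟨N, ?_, ?_, ?_⟩
  · have h4 : (fun n => dimE ℚ ((sub (homF ℚ (𝟙_ C)) (genAll V') (genAll_stab V')).obj
        (tp (M.h X) n))) = fun n => dimE ℚ (M.gen hX V n) := funext hd
    rw [← h4]
    exact h1
  · rw [h2, hbot]
    constructor
    · intro h4
      have h5 : Subsingleton (genAll V' (tp (M.h X) 1)) := h4 1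
      rw [eq_bot_iff]
      intro α hα
      have h6 : α ≫ i.inv ∈ genAll V' (tp (M.h X) 1) :=
        Submodule.subset_span ⟨α, hα, i.inv, rfl⟩
      have h7 : (⟨α ≫ i.inv, h6⟩ : genAll V' (tp (M.h X) 1)) = 0 := Subsingleton.elim _ _
      have h8 : α ≫ i.inv = 0 := congrArg Subtype.val h7
      have h9 : α = 0 := by
        rw [← Category.comp_id α, ← i.inv_hom_id, ← Category.assoc, h8, zero_comp]
      exact (Submodule.mem_bot ℚ).2 h9
    · intro h4 n
      change Subsingleton (genAll V' (tp (M.h X) n))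
      rw [Submodule.subsingleton_iff_eq_bot]
      unfold genAll
      rw [Submodule.span_eq_bot]
      rintro _ ⟨α, hα, g, rfl⟩
      rw [h4, Submodule.mem_bot] at hα
      rw [hα, zero_comp]
  · intro s f e r hdec hfz hN hlt
    rw [hbot, eq_bot_iff]
    intro α hα
    let E : Fin s → (M.h X ⟶ M.h X) := fun j => M.corr hX hX (e j)
    let f' : M.h X ⟶ M.h X := M.corr hX hX f
    have h4 := h3 1 s r (fun j => i.hom ≫ E j ≫ i.inv) (i.hom ≫ f' ≫ i.inv) (fun j =>
      ⟨numIdem_conj h.real i (hdec.simple j).idem, isRk_conj R i (hdec.simple j).rank,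
        numSimple_conj h.real i (hdec.simple j).simple⟩) ?_ hN hlt
    · have h5 : α ≫ i.inv ∈ genAll V' (tp (M.h X) 1) :=
        Submodule.subset_span ⟨α, hα, i.inv, rfl⟩
      have h6 : α ≫ f' = α := by
        have h7 := hfz (M.cycles X hX α) hα
        unfold Motives.push at h7
        rw [LinearEquiv.symm_apply_apply] at h7
        exact (M.cycles X hX).injective h7
      have h7 : (⟨α ≫ i.inv, h5⟩ : genAll V' (tp (M.h X) 1)) = 0 := by
        refine h4 (⟨α ≫ i.inv, h5⟩ : genAll V' (tp (M.h X) 1)) ?_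
        refine Subtype.ext ?_
        change (α ≫ i.inv) ≫ (i.hom ≫ f' ≫ i.inv) = α ≫ i.inv
        rw [Category.assoc, Iso.inv_hom_id_assoc, ← Category.assoc, h6]
      have h8 : α ≫ i.inv = 0 := congrArg Subtype.val h7
      have h9 : α = 0 := by
        rw [← Category.comp_id α, ← i.inv_hom_id, ← Category.assoc, h8, zero_comp]
      exact (Submodule.mem_bot ℚ).2 h9
    · have h5 : (i.hom ≫ f' ≫ i.inv) - ∑ j, i.hom ≫ E j ≫ i.inv =
          i.hom ≫ (f' - ∑ j, E j) ≫ i.inv := by
        rw [Preadditive.sub_comp, Preadditive.comp_sub, Preadditive.sum_comp,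
          Preadditive.comp_sum]
      rw [h5]
      exact numTriv_conj h.real i hdec.sum

end Pool.Agent.U724.CH
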