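import Pool.Agent.U724.CH.GenV

/-!
# Cycles of small codimension on hypersurfaces and the law for generated cycles
-/

set_option autoImplicit false
set_option linter.unusedSectionVars false

open CategoryTheory AlgebraicGeometry Limits MonoidalCategory Module Filter
open Pool.Agent.Y112.SR Pool.Agent.Y112.KD Pool.Agent.N64.AF Pool.Agent.U724.PH
open Pool.Agent.U724.NT
open scoped ENNReal

namespace Pool.Agent.U724.CH

universe u u' v w t x y

/-- The class of the closure of a point. -/
noncomputable def cls {Y : Scheme.{u}} (x : Y) : Chow Y :=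
  Submodule.Quotient.mk (Finsupp.single x (1 : ℚ))

/-- The space of the cycles of codimension `i` on `Y` with rational coefficients modulo rational
equivalence: it is spanned by the closures of the points whose local ring has dimension `i`. -/
noncomputable def codim (Y : Scheme.{u}) (i : ℕ) : Submodule ℚ (Chow Y) :=
  Submodule.span ℚ {z | ∃ x : Y, ringKrullDim (Y.presheaf.stalk x) = i ∧ z = cls x}

variable {k : Type u} [Field k] {C : Type u'} [Category.{v} C] [Preadditive C]
  [MonoidalCategory C] [SymmetricCategory C] [Linear ℚ C] {K : Type w} [Field K]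

/-- The correspondence `f` is a projector to the primitive part of the cycles on `X` with respect to the
classes `h i` of codimension `i ≤ n` (for a hypersurface of dimension `n` and degree `d` the powers of the
class `h` of a hyperplane section, and `f` is the class of the diagonal minus `1 / d` times the sum of
the classes `h ^ i × h ^ (n - i)`): it maps a cycle `z` of codimension `i` to `z - c h i` for some
rational number `c`, and `h i` to zero. -/
structure Motives.IsPrimitive (M : Motives k C) {X : Sch k} (hX : M.IsVar X) (n : ℕ)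
    (h : ℕ → Chow X.left) (f : Chow (prod X X).left) : Prop where
  mem : ∀ i ≤ n, h i ∈ codim X.left i
  act : ∀ i ≤ n, ∀ z ∈ codim X.left i, ∃ c : ℚ,
    M.push hX hX (M.corr hX hX f) z = z - c • h i
  zero : ∀ i ≤ n, M.push hX hX (M.corr hX hX f) (h i) = 0

/-- The span of the images under `f` of the cycles of codimension less than `n / 2`. -/
noncomputable def Motives.primCycles (M : Motives k C) {X : Sch k} (hX : M.IsVar X) (n : ℕ)
    (f : Chow (prod X X).left) : Submodule ℚ (Chow X.left) :=
  Submodule.span ℚ {w | ∃ i : ℕ, 2 * i < n ∧ ∃ z ∈ codim X.left i,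
    w = M.push hX hX (M.corr hX hX f) z}

/-- The action of a correspondence as a linear map. -/
noncomputable def Motives.pushL (M : Motives k C) {X Y : Sch k} (hX : M.IsVar X)
    (hY : M.IsVar Y) (f : M.h X ⟶ M.h Y) : Chow X.left →ₗ[ℚ] Chow Y.left :=
  (M.cycles Y hY).toLinearMap ∘ₗ (Linear.rightComp ℚ (𝟙_ C) f) ∘ₗ
    (M.cycles X hX).symm.toLinearMap

lemma Motives.push_eq (M : Motives k C) {X Y : Sch k} (hX : M.IsVar X) (hY : M.IsVar Y)
    (f : M.h X ⟶ M.h Y) (z : Chow X.left) : M.push hX hY f z = M.pushL hX hY f z := rfl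

lemma Motives.IsPrimitive.bot_iff {M : Motives k C} {X : Sch k} {hX : M.IsVar X} {n : ℕ}
    {h : ℕ → Chow X.left} {f : Chow (prod X X).left} (H : M.IsPrimitive hX n h f) :
    M.primCycles hX n f = ⊥ ↔ ∀ i : ℕ, 2 * i < n → codim X.left i = Submodule.span ℚ {h i} := by
  constructor
  · intro hV i hi
    apply le_antisymm
    · intro z hz
      obtain ⟨c, hc⟩ := H.act i (by omega) z hz
      have h1 : M.push hX hX (M.corr hX hX f) z ∈ M.primCycles hX n f :=
        Submodule.subset_span ⟨i, hi, z, hz, rfl⟩
      rw [hV, Submodule.mem_bot, hc, sub_eq_zero] at h1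
      rw [h1]
      exact Submodule.smul_mem _ _ (Submodule.mem_span_singleton_self _)
    · rw [Submodule.span_singleton_le_iff_mem]
      exact H.mem i (by omega)
  · intro hi
    unfold Motives.primCycles
    rw [Submodule.span_eq_bot]
    rintro _ ⟨i, h1, z, hz, rfl⟩
    rw [hi i h1, Submodule.mem_span_singleton] at hz
    obtain ⟨c, rfl⟩ := hz
    rw [M.push_eq, map_smul, ← M.push_eq, H.zero i (by omega), smul_zero]

lemma Motives.IsPrimitive.fix {M : Motives k C} {X : Sch k} {hX : M.IsVar X} {n : ℕ}
    {h : ℕ → Chow X.left} {f : Chow (prod X X).left} (H : M.IsPrimitive hX n h f)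
    {w : Chow X.left} (hw : w ∈ M.primCycles hX n f) :
    M.push hX hX (M.corr hX hX f) w = w := by
  have h1 : M.primCycles hX n f ≤
      LinearMap.ker (M.pushL hX hX (M.corr hX hX f) - LinearMap.id) := by
    refine Submodule.span_le.2 ?_
    rintro _ ⟨i, h1, z, hz, rfl⟩
    change _ ∈ LinearMap.ker _
    rw [LinearMap.mem_ker, LinearMap.sub_apply, LinearMap.id_apply, sub_eq_zero]
    obtain ⟨c, hc⟩ := H.act i (by omega) z hz
    have h2 : M.pushL hX hX (M.corr hX hX f) (M.push hX hX (M.corr hX hX f) z) =
        M.pushL hX hX (M.corr hX hX f) (z - c • h i) := by rw [hc]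
    rw [h2, map_sub, map_smul, ← M.push_eq, ← M.push_eq, H.zero i (by omega), smul_zero,
      sub_zero]
  have h2 := h1 hw
  rw [LinearMap.mem_ker, LinearMap.sub_apply, LinearMap.id_apply, sub_eq_zero] at h2
  exact h2

variable [MonoidalPreadditive C] [RightRigidCategory C] [MonoidalLinear ℚ C] [Algebra ℚ K]
  [IsAlgClosed K]

/-- The law. -/
theorem Motives.IsPrimitive.law {M : Motives k C} (R : SuperRealisation C K) {X : Sch k}
    {hX : M.IsVar X} (hne : Nonempty X.left) (hs : R.CPlus (M.h X)) {n : ℕ}
    {h : ℕ → Chow X.left} {f : Chow (prod X X).left} (H : M.IsPrimitive hX n h f) :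
    ∃ N : ℕ∞, HasLaw ℚ (M.h X) (fun m => dimE ℚ (M.gen hX (M.primCycles hX n f) m)) N ∧
      (N = 0 ↔ ∀ i : ℕ, 2 * i < n → codim X.left i = Submodule.span ℚ {h i}) ∧
      ∀ (s : ℕ) (e : Fin s → Chow (prod X X).left) (r : Fin s → ℕ), M.IsDecomp R hX f e r →
        N ≠ ⊤ → (∀ i, N < r i) →
          ∀ i : ℕ, 2 * i < n → codim X.left i = Submodule.span ℚ {h i} := by
  obtain ⟨N, h1, h2, h3⟩ := M.gen_law R hX hne hs (M.primCycles hX n f)
  refine ⟨N, h1, h2.trans H.bot_iff, fun s e r hd hN hlt => ?_⟩
  exact H.bot_iff.1 (h3 s f e r hd (fun z hz => H.fix hz) hN hlt)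

end Pool.Agent.U724.CH
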