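import Pool.Agent.U724.CH.Trans

/-!
# The law for the kernel of an Abel–Jacobi map and simple parts of the motives of the powers
-/

set_option autoImplicit false

open CategoryTheory AlgebraicGeometry Limits MonoidalCategory Module Filter
open Pool.Agent.Y112.SR Pool.Agent.Y112.KD Pool.Agent.N64.AF Pool.Agent.U724.PH
open Pool.Agent.U724.NT
open Pool.Agent.Y116.MT (tr)
open scoped ENNReal

namespace Pool.Agent.U724.CH

universe u u' v w t x y

variable {k : Type u} [Field k] {C : Type u'} [Category.{v} C] [Preadditive C]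
  [MonoidalCategory C] [SymmetricCategory C] [Linear ℚ C] {K : Type w} [Field K]

/-- An Abel–Jacobi map: maps from the groups of the cycles (only their values on the homologically
trivial cycles are used) on the varieties `X` to sets `J X` with a zero element on which the
correspondences act, compatible with the action of the correspondences. -/
structure Motives.AJMap (M : Motives k C) (R : SuperRealisation C K) where
  /-- the targets -/
  J : Sch k → Type y
  /-- the zero element of the target -/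
  o (X : Sch k) : J X
  /-- the Abel–Jacobi map of `X` -/
  aj (X : Sch k) : Chow X.left → J X
  /-- the action of the correspondences on the targets -/
  act (X Y : Sch k) (f : M.h X ⟶ M.h Y) : J X → J Y
  act_o (X Y : Sch k) (f : M.h X ⟶ M.h Y) : act X Y f (o X) = o Y
  comm (X Y : Sch k) (hX : M.IsVar X) (hY : M.IsVar Y) (f : M.h X ⟶ M.h Y) (z : Chow X.left) :
    z ∈ M.homTriv R hX → aj Y (M.push hX hY f z) = act X Y f (aj X z)

/-- The space spanned by the homologically trivial cycles on `X` with Abel–Jacobi image zero: the kernel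
of the Abel–Jacobi map if this is a linear map. -/
noncomputable def Motives.AJMap.ker {M : Motives k C} {R : SuperRealisation C K} (A : M.AJMap R)
    {X : Sch k} (hX : M.IsVar X) : Submodule ℚ (Chow X.left) :=
  Submodule.span ℚ {z | z ∈ M.homTriv R hX ∧ A.aj X z = A.o X}

variable [Algebra ℚ K]

lemma Motives.push_homTriv (M : Motives k C) (R : SuperRealisation C K) {X Y : Sch k}
    (hX : M.IsVar X) (hY : M.IsVar Y) (f : M.h X ⟶ M.h Y) {z : Chow X.left}
    (hz : z ∈ M.homTriv R hX) : M.push hX hY f z ∈ M.homTriv R hY := by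
  rw [M.mem_homTriv] at hz ⊢
  unfold Motives.push
  rw [LinearEquiv.symm_apply_apply, R.H.map_comp, hz, zero_comp]

lemma Motives.AJMap.push_ker {M : Motives k C} {R : SuperRealisation C K} (A : M.AJMap R)
    {X Y : Sch k} (hX : M.IsVar X) (hY : M.IsVar Y) (f : M.h X ⟶ M.h Y) {z : Chow X.left}
    (hz : z ∈ A.ker hX) : M.push hX hY f z ∈ A.ker hY := by
  refine Submodule.span_induction (p := fun z _ => M.push hX hY f z ∈ A.ker hY)
    ?_ ?_ ?_ ?_ hz
  · rintro z ⟨h1, h2⟩
    refine Submodule.subset_span ⟨M.push_homTriv R hX hY f h1, ?_⟩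
    rw [A.comm X Y hX hY f z h1, h2, A.act_o]
  · unfold Motives.push
    rw [map_zero, zero_comp, map_zero]
    exact Submodule.zero_mem _
  · intro a b _ _ ha hb
    unfold Motives.push at ha hb ⊢
    rw [map_add, Preadditive.add_comp, map_add]
    exact Submodule.add_mem _ ha hb
  · intro c a _ ha
    unfold Motives.push at ha ⊢
    rw [map_smul, Linear.smul_comp, map_smul]
    exact Submodule.smul_mem _ _ ha

/-- The kernel of the Abel–Jacobi map extended to all objects. -/
noncomputable def Motives.AJMap.all {M : Motives k C} {R : SuperRealisation C K}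
    (A : M.AJMap R) (Z : C) : Submodule ℚ (𝟙_ C ⟶ Z) where
  carrier := {α | ∀ (Y : Sch k) (hY : M.IsVar Y) (f : Z ⟶ M.h Y),
    M.cycles Y hY (α ≫ f) ∈ A.ker hY}
  zero_mem' := fun Y hY f => by
    rw [zero_comp, map_zero]
    exact Submodule.zero_mem _
  add_mem' := fun {a b} ha hb Y hY f => by
    rw [Preadditive.add_comp, map_add]
    exact Submodule.add_mem _ (ha Y hY f) (hb Y hY f)
  smul_mem' := fun c a ha Y hY f => by
    rw [Linear.smul_comp, map_smul]
    exact Submodule.smul_mem _ _ (ha Y hY f)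

lemma Motives.AJMap.mem_all {M : Motives k C} {R : SuperRealisation C K} (A : M.AJMap R)
    {X : Sch k} (hX : M.IsVar X) {Z : C} (e : Z ≅ M.h X) {α : 𝟙_ C ⟶ Z} :
    α ∈ A.all Z ↔ M.cycles X hX (α ≫ e.hom) ∈ A.ker hX := by
  constructor
  · intro h
    exact h X hX e.hom
  · intro h Y hY f
    have h1 := A.push_ker hX hY (e.inv ≫ f) h
    unfold Motives.push at h1
    rw [LinearEquiv.symm_apply_apply] at h1
    simpa using h1

lemma Motives.AJMap.dim_all {M : Motives k C} {R : SuperRealisation C K} (A : M.AJMap R)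
    {X : Sch k} (hX : M.IsVar X) {Z : C} (i : Z ≅ M.h X) :
    dimE ℚ (A.all Z) = dimE ℚ (A.ker hX) := by
  let e : (𝟙_ C ⟶ Z) ≃ₗ[ℚ] Chow X.left :=
    (Linear.homCongr ℚ (Iso.refl _) i) ≪≫ₗ M.cycles X hX
  have he : ∀ f, e f = M.cycles X hX (f ≫ i.hom) := by
    intro f
    simp [e, Linear.homCongr]
  have h1 : (A.all Z).map (e : (𝟙_ C ⟶ Z) →ₗ[ℚ] Chow X.left) = A.ker hX := by
    ext z
    constructor
    · rintro ⟨f, hf, rfl⟩
      have h2 := (A.mem_all hX i).1 hf
      rw [← he] at h2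
      exact h2
    · intro hz
      refine ⟨e.symm z, ?_, e.apply_symm_apply z⟩
      change e.symm z ∈ A.all Z
      rw [A.mem_all hX i, ← he, e.apply_symm_apply]
      exact hz
  exact dimE_congr ((e.submoduleMap (A.all Z)).trans (LinearEquiv.ofEq _ _ h1))

variable [MonoidalPreadditive C] [RightRigidCategory C] [MonoidalLinear ℚ C] [IsAlgClosed K]

lemma numSimple_conj {R : SuperRealisation C K} (hR : IsReal ℚ R) {Y Z : C} (i : Y ≅ Z)
    {E : Z ⟶ Z} (h : NumSimple E) : NumSimple (i.hom ≫ E ≫ i.inv) := by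
  intro u hu
  have h4 : i.hom ≫ (E ≫ (i.inv ≫ u ≫ i.hom) ≫ E) ≫ i.inv =
      (i.hom ≫ E ≫ i.inv) ≫ u ≫ (i.hom ≫ E ≫ i.inv) := by simp
  have h5 : ¬ NumTriv (E ≫ (i.inv ≫ u ≫ i.hom) ≫ E) := by
    intro h6
    apply hu
    rw [← h4]
    exact numTriv_conj hR i h6
  obtain ⟨v, hv⟩ := h _ h5
  refine ⟨i.hom ≫ v ≫ i.inv, ?_⟩
  have h6 : ((i.hom ≫ E ≫ i.inv) ≫ u ≫ (i.hom ≫ E ≫ i.inv)) ≫ (i.hom ≫ v ≫ i.inv) -
      i.hom ≫ E ≫ i.inv = i.hom ≫ ((E ≫ (i.inv ≫ u ≫ i.hom) ≫ E) ≫ v - E) ≫ i.inv := by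
    simp
  rw [h6]
  exact numTriv_conj hR i hv

lemma numIdem_conj {R : SuperRealisation C K} (hR : IsReal ℚ R) {Y Z : C} (i : Y ≅ Z)
    {E : Z ⟶ Z} (h : NumIdem E) : NumIdem (i.hom ≫ E ≫ i.inv) := by
  have h4 : (i.hom ≫ E ≫ i.inv) ≫ (i.hom ≫ E ≫ i.inv) - i.hom ≫ E ≫ i.inv =
      i.hom ≫ (E ≫ E - E) ≫ i.inv := by
    simp
  unfold NumIdem
  rw [h4]
  exact numTriv_conj hR i h

omit [Algebra ℚ K] [MonoidalPreadditive C] [RightRigidCategory C] [MonoidalLinear ℚ C]
  [IsAlgClosed K] [Linear ℚ C] in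
lemma isRk_conj (R : SuperRealisation C K) {Y Z : C} (i : Y ≅ Z) {E : Z ⟶ Z} {r : ℕ}
    (hr : IsRk R E r) : IsRk R (i.hom ≫ E ≫ i.inv) r := by
  have hf1 := R.finite Y
  have hf2 := R.finite Z
  unfold IsRk at hr ⊢
  rw [← hr, R.H.map_comp, R.H.map_comp]
  change LinearMap.trace K _ ((R.H.map i.inv).hom ∘ₗ ((R.H.map E).hom ∘ₗ
    (R.H.map i.hom).hom)) = _
  rw [LinearMap.trace_comp_comm']
  congr 1
  have h4 : R.H.map i.inv ≫ R.H.map i.hom = 𝟙 _ := by
    rw [← R.H.map_comp, i.inv_hom_id, R.H.map_id]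
  have h5 : (R.H.map i.hom).hom ∘ₗ (R.H.map i.inv).hom = LinearMap.id :=
    congrArg ModuleCat.Hom.hom h4
  rw [LinearMap.comp_assoc, h5, LinearMap.comp_id]

/-- The law. -/
theorem Motives.AJMap.simple_law {M : Motives k C} {R : SuperRealisation C K} (A : M.AJMap R)
    {X : Sch k} (hX : M.IsVar X) (hne : Nonempty X.left) (hs : R.CPlus (M.h X)) :
    ∃ N : ℕ∞, HasLaw ℚ (M.h X) (fun n => dimE ℚ (A.ker (M.isVar_power hX n))) N ∧
      (N = 0 ↔ ∀ n, A.ker (M.isVar_power hX n) = ⊥) ∧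
      ∀ (m r : ℕ) (e : Chow (prod (power X m) (power X m)).left),
        M.IsSimplePart R (M.isVar_power hX m) e r →
        (∃ z ∈ A.ker (M.isVar_power hX m), z ≠ 0 ∧
          M.push (M.isVar_power hX m) (M.isVar_power hX m)
            (M.corr (M.isVar_power hX m) (M.isVar_power hX m) e) z = z) →
          (r : ℕ∞) ≤ N := by
  let _ := M.dual X hX
  have h := M.isPow (R := R) hX hne hs
  have hst : IsStab (homF ℚ (𝟙_ C)) A.all := by
    intro Y Z f α hα W hW g
    have h1 := hα W hW (f ≫ g)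
    rw [← Category.assoc] at h1
    exact h1
  obtain ⟨N, h1, h2, h3⟩ := PH.simple_law h (sub (homF ℚ (𝟙_ C)) A.all hst)
  have hd : ∀ n, dimE ℚ ((sub (homF ℚ (𝟙_ C)) A.all hst).obj (tp (M.h X) n)) =
      dimE ℚ (A.ker (M.isVar_power hX n)) := fun n =>
    A.dim_all (M.isVar_power hX n) (M.hpow hX n)
  refine ⟨N, ?_, ?_, ?_⟩
  · have h4 : (fun n => dimE ℚ ((sub (homF ℚ (𝟙_ C)) A.all hst).obj (tp (M.h X) n))) =
        fun n => dimE ℚ (A.ker (M.isVar_power hX n)) := funext hd
    rw [← h4]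
    exact h1
  · rw [h2]
    refine forall_congr' fun n => ?_
    rw [← dimE_zero_iff (Λ := ℚ), hd n]
    rw [dimE_zero_iff, Submodule.subsingleton_iff_eq_bot]
  · rintro m r e ⟨he, hr, hsi⟩ ⟨z, hz, hz0, hez⟩
    have hXm := M.isVar_power hX m
    let i : tp (M.h X) m ≅ M.h (power X m) := M.hpow hX m
    obtain ⟨E, hE⟩ : ∃ E : M.h (power X m) ⟶ M.h (power X m), E = M.corr hXm hXm e :=
      ⟨_, rfl⟩
    change NumIdem (M.corr hXm hXm e) at he
    change IsRk R (M.corr hXm hXm e) r at hr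
    change NumSimple (M.corr hXm hXm e) at hsi
    rw [← hE] at he hr hsi hez
    refine h3 m r (i.hom ≫ E ≫ i.inv) (numIdem_conj h.real i he) (isRk_conj R i hr)
      (numSimple_conj h.real i hsi) ?_
    have h5 : (M.cycles _ hXm).symm z ≫ E = (M.cycles _ hXm).symm z := by
      apply (M.cycles _ hXm).injective
      rw [LinearEquiv.apply_symm_apply]
      exact hez
    let z' : (sub (homF ℚ (𝟙_ C)) A.all hst).obj (tp (M.h X) m) :=
      (⟨(M.cycles _ hXm).symm z ≫ i.inv, by
        rw [A.mem_all hXm i, Category.assoc, i.inv_hom_id, Category.comp_id,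
          LinearEquiv.apply_symm_apply]
        exact hz⟩ : A.all (tp (M.h X) m))
    refine ⟨z', ?_, ?_⟩
    · intro h6
      apply hz0
      have h7 : (M.cycles _ hXm).symm z ≫ i.inv = 0 := congrArg Subtype.val h6
      have h8 : (M.cycles _ hXm).symm z = 0 := by
        rw [← Category.comp_id ((M.cycles _ hXm).symm z), ← i.inv_hom_id, ← Category.assoc, h7,
          zero_comp]
      exact (M.cycles _ hXm).symm.injective (by rw [h8, map_zero])
    · refine Subtype.ext ?_
      change ((M.cycles _ hXm).symm z ≫ i.inv) ≫ (i.hom ≫ E ≫ i.inv) =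
        (M.cycles _ hXm).symm z ≫ i.inv
      rw [Category.assoc, Iso.inv_hom_id_assoc, ← Category.assoc, h5]

end Pool.Agent.U724.CH
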