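import Pool.Agent.U724.CH.Ker
import Pool.Agent.U724.PH.SimpleSum

/-!
# The law for the kernel of an Abel–Jacobi map and several simple parts of the motives of the powers
-/

set_option autoImplicit false

open CategoryTheory AlgebraicGeometry Limits MonoidalCategory Module Filter
open Pool.Agent.Y112.SR Pool.Agent.Y112.KD Pool.Agent.N64.AF Pool.Agent.U724.PH
open Pool.Agent.U724.NT
open scoped ENNReal

namespace Pool.Agent.U724.CH

universe u u' v w t x y

variable {k : Type u} [Field k] {C : Type u'} [Category.{v} C] [Preadditive C]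
  [MonoidalCategory C] [MonoidalPreadditive C] [SymmetricCategory C] [RightRigidCategory C]
  [Linear ℚ C] {K : Type w} [Field K]

/-- Each correspondence `e' ∘ u ∘ e` is numerically trivial: the simple motives `(X, e)` and `(Y, e')`
are not isomorphic (up to Tate twists) modulo numerical equivalence. -/
def Motives.NotIso (M : Motives k C) {X Y : Sch k} (hX : M.IsVar X) (hY : M.IsVar Y)
    (e : Chow (prod X X).left) (e' : Chow (prod Y Y).left) : Prop :=
  ∀ u : M.h X ⟶ M.h Y, NumTriv (M.corr hX hX e ≫ u ≫ M.corr hY hY e')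

variable [MonoidalLinear ℚ C] [Algebra ℚ K] [IsAlgClosed K]

/-- The law. -/
theorem Motives.AJMap.simple_sum_law {M : Motives k C} {R : SuperRealisation C K}
    (A : M.AJMap R) {X : Sch k} (hX : M.IsVar X) (hne : Nonempty X.left)
    (hs : R.CPlus (M.h X)) :
    ∃ N : ℕ∞, HasLaw ℚ (M.h X) (fun n => dimE ℚ (A.ker (M.isVar_power hX n))) N ∧
      (N = 0 ↔ ∀ n, A.ker (M.isVar_power hX n) = ⊥) ∧
      ∀ (s : ℕ) (m r : Fin s → ℕ) (e : ∀ i, Chow (prod (power X (m i)) (power X (m i))).left),
        (∀ i, M.IsSimplePart R (M.isVar_power hX (m i)) (e i) (r i)) →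
        (∀ i j, i ≠ j →
          M.NotIso (M.isVar_power hX (m i)) (M.isVar_power hX (m j)) (e i) (e j)) →
        (∀ i, ∃ z ∈ A.ker (M.isVar_power hX (m i)), z ≠ 0 ∧
          M.push (M.isVar_power hX (m i)) (M.isVar_power hX (m i))
            (M.corr (M.isVar_power hX (m i)) (M.isVar_power hX (m i)) (e i)) z = z) →
          ((∑ i, r i : ℕ) : ℕ∞) ≤ N := by
  let _ := M.dual X hX
  have h := M.isPow (R := R) hX hne hs
  have hst : IsStab (homF ℚ (𝟙_ C)) A.all := by
    intro Y Z f α hα W hW g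
    have h1 := hα W hW (f ≫ g)
    rw [← Category.assoc] at h1
    exact h1
  obtain ⟨N, h1, h2, h3⟩ := PH.simple_sum_law h (sub (homF ℚ (𝟙_ C)) A.all hst)
  have hd : ∀ n, dimE ℚ ((sub (homF ℚ (𝟙_ C)) A.all hst).obj (tp (M.h X) n)) =
      dimE ℚ (A.ker (M.isVar_power hX n)) := fun n =>
    A.dim_all (M.isVar_power hX n) (M.hpow hX n)
  refine ⟨N, ?_, ?_, ?_⟩
  · have h4 : (fun n => dimE ℚ ((sub (homF ℚ (𝟙_ C)) A.all hst).obj (tp (M.h X) n))) =
        fun n => dimE ℚ (A.ker (M.isVar_power hX n)) := funext hd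
    rw [← h4]
    exact h1
  · rw [h2]
    refine forall_congr' fun n => ?_
    rw [← dimE_zero_iff (Λ := ℚ), hd n]
    rw [dimE_zero_iff, Submodule.subsingleton_iff_eq_bot]
  · intro s m r e he ho hz
    let φ : ∀ n, tp (M.h X) n ≅ M.h (power X n) := M.hpow hX
    let E : ∀ i, M.h (power X (m i)) ⟶ M.h (power X (m i)) := fun i =>
      M.corr (M.isVar_power hX (m i)) (M.isVar_power hX (m i)) (e i)
    refine h3 s m r (fun i => (φ (m i)).hom ≫ E i ≫ (φ (m i)).inv) (fun i =>
      ⟨numIdem_conj h.real _ (he i).idem, isRk_conj R _ (he i).rank,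
        numSimple_conj h.real _ (he i).simple⟩) ?_ ?_
    · intro i j hij u
      have h4 := NumTriv.comp h.real (ho i j hij ((φ (m i)).inv ≫ u ≫ (φ (m j)).hom))
        (φ (m i)).hom (φ (m j)).inv
      have h5 : ((φ (m i)).hom ≫ E i ≫ (φ (m i)).inv) ≫ u ≫
          ((φ (m j)).hom ≫ E j ≫ (φ (m j)).inv) = (φ (m i)).hom ≫
            (E i ≫ ((φ (m i)).inv ≫ u ≫ (φ (m j)).hom) ≫ E j) ≫ (φ (m j)).inv := by
        simp only [Category.assoc]
      rw [h5]
      exact h4
    · intro i
      obtain ⟨z, hz, hz0, hez⟩ := hz i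
      have hXm := M.isVar_power hX (m i)
      have h5 : (M.cycles _ hXm).symm z ≫ E i = (M.cycles _ hXm).symm z := by
        apply (M.cycles _ hXm).injective
        rw [LinearEquiv.apply_symm_apply]
        exact hez
      let z' : (sub (homF ℚ (𝟙_ C)) A.all hst).obj (tp (M.h X) (m i)) :=
        (⟨(M.cycles _ hXm).symm z ≫ (φ (m i)).inv, by
          rw [A.mem_all hXm (φ (m i)), Category.assoc, (φ (m i)).inv_hom_id, Category.comp_id,
            LinearEquiv.apply_symm_apply]
          exact hz⟩ : A.all (tp (M.h X) (m i)))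
      refine ⟨z', ?_, ?_⟩
      · intro h6
        apply hz0
        have h7 : (M.cycles _ hXm).symm z ≫ (φ (m i)).inv = 0 := congrArg Subtype.val h6
        have h8 : (M.cycles _ hXm).symm z = 0 := by
          rw [← Category.comp_id ((M.cycles _ hXm).symm z), ← (φ (m i)).inv_hom_id,
            ← Category.assoc, h7, zero_comp]
        exact (M.cycles _ hXm).symm.injective (by rw [h8, map_zero])
      · refine Subtype.ext ?_
        change ((M.cycles _ hXm).symm z ≫ (φ (m i)).inv) ≫
          ((φ (m i)).hom ≫ E i ≫ (φ (m i)).inv) = (M.cycles _ hXm).symm z ≫ (φ (m i)).inv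
        rw [Category.assoc, Iso.inv_hom_id_assoc, ← Category.assoc, h5]

end Pool.Agent.U724.CH
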