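import Pool.Agent.U724.CH.Real
import Pool.Agent.U724.PH.KimC

/-!
# Kimura finiteness and growth for the varieties over a field
-/

set_option autoImplicit false

open CategoryTheory AlgebraicGeometry Limits MonoidalCategory Module Filter
open Pool.Agent.Y112.SR Pool.Agent.Y112.KD Pool.Agent.N64.AF Pool.Agent.U724.PH
open scoped ENNReal

namespace Pool.Agent.U724.CH

universe u u' v w t x y

variable {k : Type u} [Field k] {C : Type u'} [Category.{v} C] [Preadditive C]
  [MonoidalCategory C] [SymmetricCategory C] [Linear ℚ C] {K : Type w} [Field K] [Algebra ℚ K]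

/-- `c ^ n ≤ dim CH (X ^ n)_hom` for all large `n`. -/
def Motives.Grows (M : Motives k C) (R : SuperRealisation C K) {X : Sch k}
    (hX : M.IsVar X) (c : ℝ) : Prop :=
  ∀ᶠ n : ℕ in atTop, ENNReal.ofReal (c ^ n) ≤ M.homDim R hX n

variable [MonoidalPreadditive C] [MonoidalLinear ℚ C] [RightRigidCategory C]

lemma Motives.grows_iff (M : Motives k C) (R : SuperRealisation C K) {X : Sch k}
    (hX : M.IsVar X) [IsAlgClosed K] (hR : IsReal ℚ R) (c : ℝ) :
    GrowsLike hR (M.h X) c ↔ M.Grows R hX c := by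
  unfold GrowsLike Motives.Grows Motives.homDim
  simp_rw [M.dim_homTriv R (M.isVar_power hX _) (M.hpow hX _) hR]

omit [Linear ℚ C] [Algebra ℚ K] [MonoidalPreadditive C] [MonoidalLinear ℚ C]
  [RightRigidCategory C] in
/-- Nilpotence is invariant under isomorphisms. -/
lemma nil_iso {Y Z : C} (i : Y ≅ Z) {R : SuperRealisation C K}
    (h : ∀ y : End Y, R.H.map (y : Y ⟶ Y) = 0 → IsNilpotent y) :
    ∀ z : End Z, R.H.map (z : Z ⟶ Z) = 0 → IsNilpotent z := by
  intro z hz
  let y : End Y := i.hom ≫ (z : Z ⟶ Z) ≫ i.inv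
  obtain ⟨m, hm⟩ := h y (by
    change R.H.map (i.hom ≫ (z : Z ⟶ Z) ≫ i.inv) = 0
    rw [R.H.map_comp, R.H.map_comp, hz, zero_comp, comp_zero])
  refine ⟨m, ?_⟩
  have h1 : ∀ n : ℕ, ((y ^ n : End Y) : Y ⟶ Y) =
      i.hom ≫ ((z ^ n : End Z) : Z ⟶ Z) ≫ i.inv := by
    intro n
    induction n with
    | zero =>
      change 𝟙 Y = i.hom ≫ 𝟙 Z ≫ i.inv
      simp
    | succ n ih =>
      rw [pow_succ, pow_succ, End.mul_def, End.mul_def, ih]
      change (i.hom ≫ (z : Z ⟶ Z) ≫ i.inv) ≫ _ = _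
      simp
  have h2 := h1 m
  rw [hm] at h2
  have h3 : i.inv ≫ (i.hom ≫ ((z ^ m : End Z) : Z ⟶ Z) ≫ i.inv) ≫ i.hom =
      ((z ^ m : End Z) : Z ⟶ Z) := by simp
  rw [← h2] at h3
  have h4 : i.inv ≫ (0 : Y ⟶ Y) ≫ i.hom = 0 := by simp
  exact h3.symm.trans h4

/-- All homologically trivial correspondences from `X` to itself are nilpotent. -/
def Motives.HomNilp (M : Motives k C) (R : SuperRealisation C K) (X : Sch k) : Prop :=
  ∀ y : End (M.h X), R.H.map (y : M.h X ⟶ M.h X) = 0 → IsNilpotent y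

/-- The dichotomy. -/
theorem Motives.kimura_or [IsIdempotentComplete C] [IsAlgClosed K] (M : Motives k C)
    (R : SuperRealisation C K) {X : Sch k} (hX : M.IsVar X) (hne : Nonempty X.left)
    (hs : R.CPlus (M.h X)) :
    (Pool.Agent.R905.IsKimuraFinite (M.h X) ∨ ∀ c : ℝ, 0 ≤ c →
      c ^ (M.betti R X + 1) < (M.betti R X : ℝ) ^ (M.betti R X + 1) + 1 → M.Grows R hX c) ∧
    ∀ m : ℕ, 0 < m → M.HomNilp R (power X m) ∨
        ∀ c : ℝ, 0 ≤ c → c ^ m < (M.betti R X : ℝ) ^ m + 1 → M.Grows R hX c := by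
  let _ := M.dual X hX
  have h := M.isPow hX hne hs
  refine ⟨?_, fun m hm => ?_⟩
  · rcases kimura_or_grows h with h1 | h1
    · exact Or.inl h1
    · exact Or.inr fun c h0 hc => (M.grows_iff R hX h.real c).1 (h1 c h0 hc)
  · rcases nil_or_grows h hm with h1 | h1
    · exact Or.inl (nil_iso (M.hpow hX m) h1)
    · exact Or.inr fun c h0 hc => (M.grows_iff R hX h.real c).1 (h1 c h0 hc)

end Pool.Agent.U724.CH
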