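import Pool.Agent.U724.CH.Real
import Pool.Agent.U724.JM.HL

/-!
# Self-dual Chow–Künneth decompositions of Lefschetz type
-/

set_option autoImplicit false

open CategoryTheory AlgebraicGeometry Limits MonoidalCategory Module
open Pool.Agent.Y112.SR Pool.Agent.U724.PH Pool.Agent.U724.JM
open scoped TensorProduct

namespace Pool.Agent.U724.CH

universe u u' v w

variable {k : Type u} [Field k] {C : Type u'} [Category.{v} C] [Preadditive C]
  [MonoidalCategory C] [SymmetricCategory C] [Linear ℚ C]

/-- The cycles on `X × Y` are the morphisms from `h (X)` to `h (Y)`, by the duality of `h (X)` with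
itself. -/
noncomputable def Motives.corr (M : Motives k C) {X Y : Sch k} (hX : M.IsVar X)
    (hY : M.IsVar Y) : Chow (prod X Y).left ≃ (M.h X ⟶ M.h Y) :=
  let _ := M.dual X hX
  (((M.cycles _ (M.isVar_prod X Y hX hY)).symm.toEquiv.trans
    ((Iso.refl (𝟙_ C)).homCongr (M.hprod X Y hX hY))).trans
      (tensorLeftHomEquiv (𝟙_ C) (M.h X) (M.h X) (M.h Y)).symm).trans
        ((ρ_ (M.h X)).homCongr (Iso.refl _))

/-- The cycles on `X × X` as the elements of the ring of correspondences from `X` to itself, with
the composition of correspondences as multiplication. -/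
noncomputable def Motives.ring (M : Motives k C) {X : Sch k} (hX : M.IsVar X)
    (z : Chow (prod X X).left) : CategoryTheory.End (M.h X) :=
  M.corr hX hX z

/-- The cycle `b` on `X × X` is the transpose of the cycle `a`: it is adjoint to `a` for the
pairing of `h (X)` with itself. -/
def Motives.IsTranspose (M : Motives k C) {X : Sch k} (hX : M.IsVar X)
    (a b : Chow (prod X X).left) : Prop :=
  (M.ring hX a ▷ M.h X) ≫ (M.dual X hX).evaluation = (M.h X ◁ M.ring hX b) ≫
    (M.dual X hX).evaluation

variable {K : Type w} [Field K]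

/-- The cohomology of `X` (the sum over all degrees): the realisation of the motive of `X`. -/
def Motives.Coh (M : Motives k C) (R : SuperRealisation C K) (X : Sch k) : Type w :=
  R.H.obj (M.h X)

instance (M : Motives k C) (R : SuperRealisation C K) (X : Sch k) : AddCommGroup (M.Coh R X) :=
  (R.H.obj (M.h X)).isAddCommGroup

instance (M : Motives k C) (R : SuperRealisation C K) (X : Sch k) : Module K (M.Coh R X) :=
  (R.H.obj (M.h X)).isModule

/-- The action of a correspondence from `X` to `Y` on the cohomology. -/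
noncomputable def Motives.coh (M : Motives k C) (R : SuperRealisation C K) {X Y : Sch k}
    (hX : M.IsVar X) (hY : M.IsVar Y) (z : Chow (prod X Y).left) : M.Coh R X →ₗ[K] M.Coh R Y :=
  (R.H.map (M.corr hX hY z)).hom

/-- The pairing on the cohomology of `X` (Poincaré duality). -/
noncomputable def Motives.pair (M : Motives k C) (R : SuperRealisation C K) {X : Sch k}
    (hX : M.IsVar X) (x y : M.Coh R X) : K :=
  (Functor.LaxMonoidal.μ R.H (M.h X) (M.h X) ≫ R.H.map (M.dual X hX).evaluation ≫
    Functor.OplaxMonoidal.η R.H).hom (x ⊗ₜ[K] y)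

/-- `W` is the operator on the cohomology of `X` which is the multiplication by `i` on
`H ^ (dim X + i)`: the cohomology is the sum of the eigenspaces of `W` with integral eigenvalues and
`W` is skew for the pairing. -/
structure Motives.IsWeight (M : Motives k C) (R : SuperRealisation C K) {X : Sch k}
    (hX : M.IsVar X) (W : Module.End K (M.Coh R X)) : Prop where
  skew : ∀ x y, M.pair R hX (W x) y = -M.pair R hX x (W y)
  span : ⨆ i : ℤ, W.eigenspace (i : K) = ⊤

/-- `e` is a Lefschetz operator on `X`: a self-correspondence with `e ^ N = 0`, equal to its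
transpose, which raises the degree in the cohomology by two and satisfies the hard Lefschetz
theorem: there is an operator `Λ` on the cohomology with `[e, Λ] = W`. -/
structure Motives.IsLefschetz (M : Motives k C) (R : SuperRealisation C K) {X : Sch k}
    (hX : M.IsVar X) (W : Module.End K (M.Coh R X)) (e : Chow (prod X X).left) (N : ℕ) :
    Prop where
  nil : M.ring hX e ^ N = 0
  symm : M.IsTranspose hX e e
  raise : ⁅W, M.coh R hX hX e⁆ = 2 * M.coh R hX hX e
  hard : ∃ Λ : Module.End K (M.Coh R X), ⁅M.coh R hX hX e, Λ⁆ = W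

/-- The cycles `π i` (`i ∈ ℤ`) on `X × X` are a Chow–Künneth decomposition of `X`: orthogonal
projectors whose sum over `-N < i < N` is `1`, where the class of `π i` is the projector to the
eigenspace of `W` for the eigenvalue `i`, that is, to `H ^ (dim X + i)`. -/
structure Motives.IsCK (M : Motives k C) (R : SuperRealisation C K) {X : Sch k}
    (hX : M.IsVar X) (W : Module.End K (M.Coh R X)) (N : ℕ) (π : ℤ → Chow (prod X X).left) :
    Prop where
  mul : ∀ i j, M.ring hX (π i) * M.ring hX (π j) = if i = j then M.ring hX (π i) else 0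
  sum : ∑ i ∈ Finset.Ioo (-N : ℤ) N, M.ring hX (π i) = 1
  real : ∀ (i j : ℤ) (v : M.Coh R X), W v = (j : K) • v →
    M.coh R hX hX (π i) v = if i = j then v else 0

/-- `X` has a self-dual Chow–Künneth decomposition of Lefschetz type for `e`: there are a
Chow–Künneth decomposition `π i` (`i ∈ ℤ`) and a cycle `f` on `X × X` such that the transpose of
`π i` is `π (-i)`, `e π i = π (i + 2) e`, `f π (i + 2) = π i f`, and `[e, f] = ∑ i π i`. -/
def Motives.LefschetzCK (M : Motives k C) (R : SuperRealisation C K) {X : Sch k}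
    (hX : M.IsVar X) (W : Module.End K (M.Coh R X)) (e : Chow (prod X X).left)
    (N : ℕ) : Prop :=
  ∃ (π : ℤ → Chow (prod X X).left) (f : Chow (prod X X).left), M.IsCK R hX W N π ∧
    (∀ i, M.IsTranspose hX (π i) (π (-i))) ∧
    (∀ i, M.ring hX e * M.ring hX (π i) = M.ring hX (π (i + 2)) * M.ring hX e) ∧
    (∀ i, M.ring hX f * M.ring hX (π (i + 2)) = M.ring hX (π i) * M.ring hX f) ∧
    ⁅M.ring hX e, M.ring hX f⁆ = ∑ i ∈ Finset.Ioo (-N : ℤ) N, i * M.ring hX (π i)

lemma Motives.isWt (M : Motives k C) (R : SuperRealisation C K) {X : Sch k}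
    (hX : M.IsVar X) {W : Module.End K (M.Coh R X)} (hW : M.IsWeight R hX W) :
    letI := M.dual X hX
    IsWt R.H (T := M.h X) (ModuleCat.ofHom W : R.H.obj (M.h X) ⟶ R.H.obj (M.h X)) := by
  let _ := M.dual X hX
  refine ⟨?_, hW.span⟩
  apply ModuleCat.hom_ext
  apply TensorProduct.ext'
  intro x y
  exact hW.skew x y

variable [CharZero K] [MonoidalPreadditive C] [MonoidalLinear ℚ C]

lemma Motives.lefCK_iff (M : Motives k C) (R : SuperRealisation C K) {X : Sch k}
    (hX : M.IsVar X) {W : Module.End K (M.Coh R X)} {e : Chow (prod X X).left} {N : ℕ} :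
    letI := M.dual X hX
    (∃ π f, LefCK R.H (T := M.h X) (ModuleCat.ofHom W : R.H.obj (M.h X) ⟶ R.H.obj (M.h X))
      (M.ring hX e) N π f) ↔ M.LefschetzCK R hX W e N := by
  let _ := M.dual X hX
  constructor
  · rintro ⟨π, f, hp⟩
    have h3 : ∀ a : CategoryTheory.End (M.h X), M.ring hX ((M.corr hX hX).symm a) = a :=
      fun a => Equiv.apply_symm_apply _ _
    have h4 : ∀ a : CategoryTheory.End (M.h X), M.corr hX hX ((M.corr hX hX).symm a) = a :=
      fun a => Equiv.apply_symm_apply _ _
    refine ⟨fun i => (M.corr hX hX).symm (π i), (M.corr hX hX).symm f, ⟨?_, ?_, ?_⟩, ?_⟩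
    · simp only [h3]
      exact hp.mul
    · simp only [h3]
      exact hp.sum
    · simp only [Motives.coh, h4]
      exact hp.real
    · simp only [Motives.IsTranspose, h3, Ring.lie_def]
      exact ⟨hp.dual, hp.raise, hp.lower, hp.lie⟩
  · rintro ⟨π, f, ⟨h3, h4, h6⟩, h5, h7, h8, h9⟩
    exact ⟨fun i => M.ring hX (π i), M.ring hX f, h3, h4, h5, h6, h7, h8, h9⟩

/-- The criterion. -/
theorem Motives.lefschetzCK_iff (M : Motives k C) (R : SuperRealisation C K) {X : Sch k}
    (hX : M.IsVar X) {W : Module.End K (M.Coh R X)} (hW : M.IsWeight R hX W)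
    {e : Chow (prod X X).left} {N : ℕ} (he : M.IsLefschetz R hX W e N) :
    (∃ z : Chow (prod X X).left, ⁅⁅M.ring hX e, M.ring hX z⁆, M.ring hX e⁆ = 2 * M.ring hX e ∧
      ⁅W, M.coh R hX hX z⁆ = -2 * M.coh R hX hX z) ↔ M.LefschetzCK R hX W e N := by
  let _ := M.dual X hX
  have hs : SymPair (M.h X) := M.dual_symm X hX
  obtain ⟨L, hL⟩ := he.hard
  have hr : W * M.coh R hX hX e = M.coh R hX hX e * W + 2 * M.coh R hX hX e := by
    have := he.raise
    rwa [Ring.lie_def, sub_eq_iff_eq_add'] at this
  have h2 := JM.low_iff (F := R.H) hs (e := M.ring hX e) he.symm he.nil (M.isWt R hX hW) hL hr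
  rw [M.lefCK_iff R hX] at h2
  rw [← h2]
  constructor
  · rintro ⟨z, hz, hz2⟩
    refine ⟨M.ring hX z, ?_, ?_⟩
    · rwa [Ring.lie_def, sub_eq_iff_eq_add', Ring.lie_def] at hz
    · rw [Ring.lie_def, sub_eq_iff_eq_add', neg_mul, ← sub_eq_add_neg] at hz2
      exact hz2
  · rintro ⟨z, hz, hz2⟩
    refine ⟨(M.corr hX hX).symm z, ?_, ?_⟩
    · have h10 : M.ring hX ((M.corr hX hX).symm z) = z := Equiv.apply_symm_apply _ _
      rw [h10, Ring.lie_def, sub_eq_iff_eq_add', Ring.lie_def]
      exact hz
    · rw [Ring.lie_def, sub_eq_iff_eq_add', neg_mul, ← sub_eq_add_neg]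
      have h10 : M.coh R hX hX ((M.corr hX hX).symm z) = (R.H.map (z : M.h X ⟶ M.h X)).hom := by
        rw [Motives.coh, Equiv.apply_symm_apply]
      rw [h10]
      exact hz2

end Pool.Agent.U724.CH
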