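import Pool.Agent.U724.CH.Kun

/-!
# Descent of self-dual Chow–Künneth decompositions of Lefschetz type
-/

set_option autoImplicit false

open CategoryTheory AlgebraicGeometry Limits MonoidalCategory Module
open Pool.Agent.Y112.SR Pool.Agent.U724.PH Pool.Agent.U724.JM

namespace Pool.Agent.U724.CH

universe u u' v w

variable {k : Type u} [Field k] {C : Type u'} [Category.{v} C] [Preadditive C]
  [MonoidalCategory C] [SymmetricCategory C] [Linear ℚ C] {K : Type w} [Field K]

/-- The correspondence `a` from `X` to `Y` intertwines the self-correspondences `e` of `X` and `e'`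
of `Y`: `e' a = a e`. -/
def Motives.Intertwines (M : Motives k C) {X Y : Sch k} (hX : M.IsVar X) (hY : M.IsVar Y)
    (e : Chow (prod X X).left) (e' : Chow (prod Y Y).left) (a : Chow (prod X Y).left) : Prop :=
  M.corr hX hY a ≫ M.corr hY hY e' = M.corr hX hX e ≫ M.corr hX hY a

/-- `b a` is a nonzero rational number. -/
def Motives.IsSplitBy (M : Motives k C) {X Y : Sch k} (hX : M.IsVar X) (hY : M.IsVar Y)
    (a : Chow (prod X Y).left) (b : Chow (prod Y X).left) : Prop :=
  ∃ r : ℚ, r ≠ 0 ∧ M.corr hX hY a ≫ M.corr hY hX b = r • 𝟙 (M.h X)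

/-- The correspondences `a` from `X` to `Y` and `b` from `Y` to `X` make `X` with `(W, e)` a direct
factor of `Y` with `(W', e')`: `b a` is a nonzero rational number `r`, `e' a = a e`, `b e' = e b`, and the
action of `a` on the cohomology is compatible with the gradings. -/
structure Motives.IsFactor (M : Motives k C) (R : SuperRealisation C K) {X Y : Sch k}
    (hX : M.IsVar X) (hY : M.IsVar Y) (W : Module.End K (M.Coh R X))
    (W' : Module.End K (M.Coh R Y)) (e : Chow (prod X X).left) (e' : Chow (prod Y Y).left)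
    (a : Chow (prod X Y).left) (b : Chow (prod Y X).left) : Prop where
  deg : M.IsSplitBy hX hY a b
  pull : M.Intertwines hX hY e e' a
  push : M.Intertwines hY hX e' e b
  real : W' ∘ₗ M.coh R hX hY a = M.coh R hX hY a ∘ₗ W

variable [CharZero K] [MonoidalPreadditive C] [MonoidalLinear ℚ C]

lemma Motives.lefschetzCK_iff_solves (M : Motives k C) (R : SuperRealisation C K) {X : Sch k}
    (hX : M.IsVar X) {W : Module.End K (M.Coh R X)} (hW : M.IsWeight R hX W)
    {e : Chow (prod X X).left} {N : ℕ} (he : M.IsTranspose hX e e)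
    (hN : M.ring hX e ^ N = 0) :
    (∃ z, Solves R.H (M.ring hX e) z
      (ModuleCat.ofHom W : R.H.obj (M.h X) ⟶ R.H.obj (M.h X))) ↔ M.LefschetzCK R hX W e N := by
  let _ := M.dual X hX
  have hs : SymPair (M.h X) := M.dual_symm X hX
  rw [← M.lefCK_iff R hX]
  exact JM.solves_iff (F := R.H) hs (e := M.ring hX e) he hN (M.isWt R hX hW)

/-- The descent. -/
theorem Motives.lefschetzCK_descend (M : Motives k C) (R : SuperRealisation C K) {X Y : Sch k}
    (hX : M.IsVar X) (hY : M.IsVar Y) {W : Module.End K (M.Coh R X)}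
    (hW : M.IsWeight R hX W) {W' : Module.End K (M.Coh R Y)} (hW' : M.IsWeight R hY W')
    {e : Chow (prod X X).left} {e' : Chow (prod Y Y).left} {N N' : ℕ}
    (he : M.IsTranspose hX e e) (hN : M.ring hX e ^ N = 0) (he' : M.IsTranspose hY e' e')
    (hN' : M.ring hY e' ^ N' = 0) {a : Chow (prod X Y).left} {b : Chow (prod Y X).left}
    (hab : M.IsFactor R hX hY W W' e e' a b) (h : M.LefschetzCK R hY W' e' N') :
    M.LefschetzCK R hX W e N := by
  obtain ⟨z, hz⟩ := (M.lefschetzCK_iff_solves R hY hW' he' hN').2 h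
  obtain ⟨r, hr, hr2⟩ := hab.deg
  obtain ⟨z', h1⟩ := JM.Solves.descend (F := R.H) (eT := M.ring hY e') (eS := M.ring hX e) hz
    (WS := (ModuleCat.ofHom W : R.H.obj (M.h X) ⟶ R.H.obj (M.h X)))
    (M.corr hX hY a) (M.corr hY hX b) hr hr2 hab.pull hab.push.symm
    (ModuleCat.hom_ext hab.real)
  exact (M.lefschetzCK_iff_solves R hX hW he hN).1 ⟨z', h1⟩

end Pool.Agent.U724.CH
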