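import Pool.Agent.U724.CH.Kun
import Pool.Agent.U724.JM.Dcm

/-!
# Uniqueness of the Chow–Künneth decompositions of Lefschetz type
-/

set_option autoImplicit false

open CategoryTheory AlgebraicGeometry Limits MonoidalCategory Module
open Pool.Agent.Y112.SR Pool.Agent.U724.PH Pool.Agent.U724.JM

namespace Pool.Agent.U724.CH

universe u u' v w

variable {k : Type u} [Field k] {C : Type u'} [Category.{v} C] [Preadditive C]
  [MonoidalCategory C] [SymmetricCategory C] [Linear ℚ C] {K : Type w} [Field K]

/-- The Chow–Künneth decomposition `π` of `X` is of Lefschetz type for `e`, with the operator `f`: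
`e π i = π (i + 2) e`, `f π (i + 2) = π i f`, and `[e, f] = ∑ i π i`. -/
structure Motives.IsLCK (M : Motives k C) (R : SuperRealisation C K) {X : Sch k}
    (hX : M.IsVar X) (W : Module.End K (M.Coh R X)) (e : Chow (prod X X).left)
    (N : ℕ) (π : ℤ → Chow (prod X X).left) (f : Chow (prod X X).left) : Prop where
  ck : M.IsCK R hX W N π
  raise : ∀ i, M.ring hX e * M.ring hX (π i) = M.ring hX (π (i + 2)) * M.ring hX e
  lower : ∀ i, M.ring hX f * M.ring hX (π (i + 2)) = M.ring hX (π i) * M.ring hX f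
  lie : ⁅M.ring hX e, M.ring hX f⁆ = ∑ i ∈ Finset.Ioo (-N : ℤ) N, i * M.ring hX (π i)

/-- The unit `1 + ν` of the ring of correspondences, where `ν` is homologically trivial,
`ν ^ (2 N) = 0` and `ν` strictly raises the index (`π j ν π i = 0` for `j ≤ i`), commutes with `e` and
conjugates the decomposition `π` to `π'`. -/
structure Motives.IsConj (M : Motives k C) (R : SuperRealisation C K) {X : Sch k}
    (hX : M.IsVar X) (e : Chow (prod X X).left) (N : ℕ)
    (π π' : ℤ → Chow (prod X X).left) (ν : Chow (prod X X).left) : Prop where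
  up : ∀ j i, j ≤ i → M.ring hX (π j) * M.ring hX ν * M.ring hX (π i) = 0
  nil : M.ring hX ν ^ (2 * N) = 0
  coh : M.coh R hX hX ν = 0
  comm : (1 + M.ring hX ν) * M.ring hX e = M.ring hX e * (1 + M.ring hX ν)
  conj : ∀ i, (1 + M.ring hX ν) * M.ring hX (π i) = M.ring hX (π' i) * (1 + M.ring hX ν)

/-- The action of the ring of correspondences on the cohomology. -/
noncomputable def Motives.cohHom (M : Motives k C) (R : SuperRealisation C K) (X : Sch k) :
    CategoryTheory.End (M.h X) →+* Module.End K (M.Coh R X) :=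
  actHom R.H

lemma Motives.cohHom_ring (M : Motives k C) (R : SuperRealisation C K) {X : Sch k}
    (hX : M.IsVar X) (z : Chow (prod X X).left) :
    M.cohHom R X (M.ring hX z) = M.coh R hX hX z := rfl

/-- The uniqueness. -/
theorem Motives.lck_unique (M : Motives k C) (R : SuperRealisation C K) {X : Sch k}
    (hX : M.IsVar X) {W : Module.End K (M.Coh R X)} (hW : ⨆ i : ℤ, W.eigenspace (i : K) = ⊤)
    {e : Chow (prod X X).left} {N : ℕ} (hN : M.ring hX e ^ N = 0)
    {π π' : ℤ → Chow (prod X X).left} {f f' : Chow (prod X X).left}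
    (h : M.IsLCK R hX W e N π f) (h' : M.IsLCK R hX W e N π' f') :
    (∃ ν, M.IsConj R hX e N π π' ν) ∧
      ∀ j i, j < i → M.ring hX (π' j) * M.ring hX (π i) = 0 := by
  have D : Dcm (M.ring hX e) (M.ring hX f) N (fun i => M.ring hX (π i)) :=
    ⟨h.ck.mul, h.ck.sum, h.raise, h.lower, h.lie⟩
  have D' : Dcm (M.ring hX e) (M.ring hX f') N (fun i => M.ring hX (π' i)) :=
    ⟨h'.ck.mul, h'.ck.sum, h'.raise, h'.lower, h'.lie⟩
  obtain ⟨ν, h1, h2, h3, h4, h5⟩ := D.conj D' hN
  refine ⟨⟨(M.corr hX hX).symm ν, ?_⟩, h5⟩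
  have h10 : M.ring hX ((M.corr hX hX).symm ν) = ν := Equiv.apply_symm_apply _ _
  -- the classes of the projectors
  have h6 : ∀ i, M.coh R hX hX (π' i) = M.coh R hX hX (π i) := by
    intro i
    refine LinearMap.ext fun v => ?_
    have hv : v ∈ ⨆ i : ℤ, W.eigenspace (i : K) := by
      rw [hW]; trivial
    refine Submodule.iSup_induction (fun i : ℤ => W.eigenspace (i : K))
      (motive := fun v => M.coh R hX hX (π' i) v = M.coh R hX hX (π i) v) hv ?_ ?_ ?_
    · intro j x hx
      have hx' := Module.End.mem_eigenspace_iff.1 hx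
      rw [h.ck.real i j x hx', h'.ck.real i j x hx']
    · rw [map_zero, map_zero]
    · intro x y hx hy
      rw [map_add, map_add, hx, hy]
  have h7 : M.coh R hX hX ((M.corr hX hX).symm ν) = 0 := by
    rw [← M.cohHom_ring, h10]
    have h8 : ∀ i, M.cohHom R X ν * M.cohHom R X (M.ring hX (π i)) =
        M.cohHom R X (M.ring hX (π i)) * M.cohHom R X ν := by
      intro i
      have h9 := congrArg (M.cohHom R X) (h4 i)
      simp only [map_mul, map_add, map_one] at h9
      rw [M.cohHom_ring R hX (π' i), h6, ← M.cohHom_ring] at h9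
      rw [add_mul, mul_add, one_mul, mul_one, add_right_inj] at h9
      exact h9
    have h9 : ∀ i, M.cohHom R X ν * M.cohHom R X (M.ring hX (π i)) = 0 := by
      intro i
      have h11 : M.cohHom R X (M.ring hX (π i)) =
          M.cohHom R X (M.ring hX (π i)) * M.cohHom R X (M.ring hX (π i)) := by
        rw [← map_mul, h.ck.mul, if_pos rfl]
      rw [h11, ← mul_assoc, h8, ← map_mul, ← map_mul, h1 i i le_rfl, map_zero]
    have h12 : M.cohHom R X ν = ∑ i ∈ Finset.Ioo (-N : ℤ) N,
        M.cohHom R X ν * M.cohHom R X (M.ring hX (π i)) := by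
      rw [← Finset.mul_sum, ← map_sum, h.ck.sum, map_one, mul_one]
    rw [h12]
    exact Finset.sum_eq_zero fun i _ => h9 i
  refine ⟨?_, ?_, h7, ?_, ?_⟩
  · rw [h10]; exact h1
  · rw [h10]; exact h2
  · rw [h10]; exact h3
  · rw [h10]; exact h4

end Pool.Agent.U724.CH
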