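import Pool.Agent.U724.CH.KunD
import Pool.Agent.U724.CH.KunU

/-!
# Products and fibrations: definitions
-/

set_option autoImplicit false

open CategoryTheory AlgebraicGeometry Limits MonoidalCategory Module
open Pool.Agent.Y112.SR Pool.Agent.U724.PH Pool.Agent.U724.JM
open scoped TensorProduct

namespace Pool.Agent.U724.CH

universe u u' v w

variable {k : Type u} [Field k] {C : Type u'} [Category.{v} C] [Preadditive C]
  [MonoidalCategory C] [SymmetricCategory C] [Linear ℚ C] {K : Type w} [Field K]

/-- The class `Δ` of the diagonal of `X`. -/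
noncomputable def Motives.diag (M : Motives k C) {X : Sch k} (hX : M.IsVar X) :
    Chow (prod X X).left :=
  (M.corr hX hX).symm (𝟙 (M.h X))

/-- The exterior product of the self-correspondence `a` of `X` and the self-correspondence `b` of
`Y`, a self-correspondence of `X × Y`. -/
noncomputable def Motives.box (M : Motives k C) {X Y : Sch k} (hX : M.IsVar X) (hY : M.IsVar Y)
    (a : Chow (prod X X).left) (b : Chow (prod Y Y).left) :
    Chow (prod (prod X Y) (prod X Y)).left :=
  (M.corr (M.isVar_prod X Y hX hY) (M.isVar_prod X Y hX hY)).symm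
    ((M.hprod X Y hX hY).hom ≫ (M.corr hX hX a ⊗ₘ M.corr hY hY b) ≫ (M.hprod X Y hX hY).inv)

/-- The exterior product of two cohomology classes (Künneth formula). -/
noncomputable def Motives.cross (M : Motives k C) (R : SuperRealisation C K) {X Y : Sch k}
    (hX : M.IsVar X) (hY : M.IsVar Y) (x : M.Coh R X) (y : M.Coh R Y) : M.Coh R (prod X Y) :=
  (Functor.LaxMonoidal.μ R.H (M.h X) (M.h Y) ≫ R.H.map (M.hprod X Y hX hY).inv).hom (x ⊗ₜ[K] y)

/-- The weight operator of the product: `W'' (x × y) = (W x) × y + x × (W' y)`. -/
def Motives.IsSumWeight (M : Motives k C) (R : SuperRealisation C K) {X Y : Sch k}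
    (hX : M.IsVar X) (hY : M.IsVar Y) (W : Module.End K (M.Coh R X))
    (W' : Module.End K (M.Coh R Y)) (W'' : Module.End K (M.Coh R (prod X Y))) : Prop :=
  ∀ x y, W'' (M.cross R hX hY x y) = M.cross R hX hY (W x) y + M.cross R hX hY x (W' y)

/-- The intersection number of two cycles on `X`, as an endomorphism of the unit object. -/
noncomputable def Motives.inter (M : Motives k C) {X : Sch k} (hX : M.IsVar X)
    (α β : 𝟙_ C ⟶ M.h X) : 𝟙_ C ⟶ 𝟙_ C :=
  (λ_ (𝟙_ C)).inv ≫ (α ⊗ₘ β) ≫ (M.dual X hX).evaluation

/-- The class of the cycle `α` in the cohomology of `X`. -/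
noncomputable def Motives.cls (M : Motives k C) (R : SuperRealisation C K) {X : Sch k}
    (hX : M.IsVar X) (α : Chow X.left) : M.Coh R X :=
  (M.cl R hX α).hom ((Functor.LaxMonoidal.ε R.H).hom (1 : K))

/-- The self-correspondence `e` of `X` raises the degree in the cohomology by two:
`[W, e] = 2 e` on the cohomology. -/
def Motives.Raises (M : Motives k C) (R : SuperRealisation C K) {X : Sch k}
    (hX : M.IsVar X) (W : Module.End K (M.Coh R X)) (e : Chow (prod X X).left) : Prop :=
  ⁅W, M.coh R hX hX e⁆ = 2 * M.coh R hX hX e

/-- `e` is a Lefschetz operator on `X` of degree `d` and `α` is a cycle on `X` with class in the lowest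
degree of the cohomology: `e` is equal to its transpose, `e ^ (d + 1) = 0`, it raises the degree in the
cohomology by two, and the intersection number of `α` and `e ^ d α` is not zero. For instance
`d = dim X`, `e` is the intersection with the class of an ample divisor and `α` is the class of `X`. -/
structure Motives.IsAmple (M : Motives k C) (R : SuperRealisation C K) {X : Sch k}
    (hX : M.IsVar X) (W : Module.End K (M.Coh R X)) (e : Chow (prod X X).left)
    (d : ℕ) (α : Chow X.left) : Prop where
  symm : M.IsTranspose hX e e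
  nil : M.ring hX e ^ (d + 1) = 0
  raise : M.Raises R hX W e
  base : W (M.cls R hX α) = -(d : K) • M.cls R hX α
  top : M.inter hX ((M.cycles X hX).symm α) ((M.cycles X hX).symm α ≫ (M.ring hX e ^ d)) ≠ 0

/-- `X` has a Chow–Künneth decomposition of Lefschetz type for `e` (not necessarily self-dual). -/
def Motives.HasLCK (M : Motives k C) (R : SuperRealisation C K) {X : Sch k}
    (hX : M.IsVar X) (W : Module.End K (M.Coh R X)) (e : Chow (prod X X).left) (N : ℕ) : Prop :=
  ∃ (π : ℤ → Chow (prod X X).left) (f : Chow (prod X X).left), M.IsLCK R hX W e N π f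

/-- `b ξ ^ d a` is a rational number different from zero. -/
def Motives.HasFibreDegree (M : Motives k C) {X Z : Sch k} (hX : M.IsVar X) (hZ : M.IsVar Z)
    (ξ : Chow (prod Z Z).left) (d : ℕ) (a : Chow (prod X Z).left) (b : Chow (prod Z X).left) :
    Prop :=
  ∃ r : ℚ, r ≠ 0 ∧ M.corr hX hZ a ≫ (M.ring hZ ξ ^ d) ≫ M.corr hZ hX b = r • 𝟙 (M.h X)

/-- The correspondence `a` from `X` to `Z` preserves the degree in the cohomology, where
`W = degree - dim X` on `X` and `WZ = degree - dim X - d` on `Z`. -/
def Motives.PreservesDegree (M : Motives k C) (R : SuperRealisation C K) {X Z : Sch k}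
    (hX : M.IsVar X) (hZ : M.IsVar Z) (W : Module.End K (M.Coh R X))
    (WZ : Module.End K (M.Coh R Z)) (d : ℕ) (a : Chow (prod X Z).left) : Prop :=
  ∀ v, WZ (M.coh R hX hZ a v) = M.coh R hX hZ a (W v) - (d : K) • M.coh R hX hZ a v

/-- `Z` is fibred over `X` with fibres of dimension `d`: the correspondences `a` from `X` to `Z`
(the pull-back) and `b` from `Z` to `X` (the push-forward) intertwine the operators `e` of `X` and `η` of
`Z` (the intersection with a divisor class of `X` and with its pull-back), `ξ` commutes with `η`
(the intersection with a divisor class of `Z`), `ξ ^ (d + 1) = 0`, `b ξ ^ d a` is a rational number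
different from zero (the degree of the fibres), `ξ` raises the degree in the cohomology by two and `a`
preserves the degree (`W = degree - dim X` on `X` and `degree - dim X - d` on `Z`). -/
structure Motives.IsFibred (M : Motives k C) (R : SuperRealisation C K) {X Z : Sch k}
    (hX : M.IsVar X) (hZ : M.IsVar Z) (W : Module.End K (M.Coh R X))
    (WZ : Module.End K (M.Coh R Z)) (e : Chow (prod X X).left) (η ξ : Chow (prod Z Z).left)
    (d : ℕ) (a : Chow (prod X Z).left) (b : Chow (prod Z X).left) : Prop where
  pull : M.Intertwines hX hZ e η a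
  push : M.Intertwines hZ hX η e b
  comm : M.ring hZ η * M.ring hZ ξ = M.ring hZ ξ * M.ring hZ η
  nil : M.ring hZ ξ ^ (d + 1) = 0
  deg : M.HasFibreDegree hX hZ ξ d a b
  raise : M.Raises R hZ WZ ξ
  real : M.PreservesDegree R hX hZ W WZ d a

end Pool.Agent.U724.CH
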