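import Pool.Agent.U724.CH.KunD
import Pool.Agent.U724.CH.LckDefs
import Pool.Agent.U724.JM.Lck

/-!
# Decompositions of Lefschetz type of products and fibrations
-/

set_option autoImplicit false

open CategoryTheory AlgebraicGeometry Limits MonoidalCategory Module
open Pool.Agent.Y112.SR Pool.Agent.U724.PH Pool.Agent.U724.JM
open scoped TensorProduct

namespace Pool.Agent.U724.CH

universe u u' v w

variable {k : Type u} [Field k] {C : Type u'} [Category.{v} C] [Preadditive C]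
  [MonoidalCategory C] [SymmetricCategory C] [Linear ℚ C] {K : Type w} [Field K]

section Basic

lemma Motives.ring_diag (M : Motives k C) {X : Sch k} (hX : M.IsVar X) :
    M.ring hX (M.diag hX) = 1 := Equiv.apply_symm_apply _ _

lemma Motives.unit_smul (M : Motives k C) (c : 𝟙_ C ⟶ 𝟙_ C) : ∃ q : ℚ, c = q • 𝟙 (𝟙_ C) := by
  obtain ⟨g, hg⟩ := chow_pt k
  let e : (𝟙_ C ⟶ 𝟙_ C) ≃ₗ[ℚ] Chow (pt k).left :=
    (Linear.homCongr ℚ (Iso.refl _) M.hpt.symm) ≪≫ₗ M.cycles (pt k) M.isVar_pt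
  obtain ⟨q, hq⟩ := hg (e c)
  obtain ⟨r, hr⟩ := hg (e (𝟙 _))
  by_cases h0 : r = 0
  · have h1 : (𝟙 (𝟙_ C)) = 0 := e.injective (by rw [hr, h0, zero_smul, map_zero])
    exact ⟨0, by rw [← Category.comp_id c, h1, comp_zero, zero_smul]⟩
  · refine ⟨q / r, e.injective ?_⟩
    rw [map_smul, hq, hr, smul_smul, div_mul_cancel₀ _ h0]

lemma Motives.cls_comp (M : Motives k C) (R : SuperRealisation C K) {X : Sch k}
    (hX : M.IsVar X) (α : Chow X.left) (W : Module.End K (M.Coh R X)) (d : ℕ)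
    (h : W (M.cls R hX α) = -(d : K) • M.cls R hX α) :
    R.H.map ((M.cycles X hX).symm α) ≫ (ModuleCat.ofHom W : R.H.obj (M.h X) ⟶ R.H.obj (M.h X)) =
      -(d • R.H.map ((M.cycles X hX).symm α)) := by
  have h1 : Functor.LaxMonoidal.ε R.H ≫ R.H.map ((M.cycles X hX).symm α) ≫
      (ModuleCat.ofHom W : R.H.obj (M.h X) ⟶ R.H.obj (M.h X)) =
      Functor.LaxMonoidal.ε R.H ≫ (-(d • R.H.map ((M.cycles X hX).symm α))) := by
    apply ModuleCat.hom_ext
    apply LinearMap.ext_ring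
    change W (M.cls R hX α) = (-(d • R.H.map ((M.cycles X hX).symm α))).hom
      ((Functor.LaxMonoidal.ε R.H).hom (1 : K))
    rw [h]
    change -(d : K) • M.cls R hX α = -(d • M.cls R hX α)
    rw [neg_smul, Nat.cast_smul_eq_nsmul]
  have h2 := congrArg (fun g => Functor.OplaxMonoidal.η R.H ≫ g) h1
  simpa only [Functor.Monoidal.η_ε_assoc] using h2

lemma Motives.top_split (M : Motives k C) {X : Sch k} (hX : M.IsVar X) {α : 𝟙_ C ⟶ M.h X}
    {x : M.h X ⟶ M.h X} (h : M.inter hX α (α ≫ x) ≠ 0) :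
    ∃ (β : M.h X ⟶ 𝟙_ C) (q : ℚ), q ≠ 0 ∧ α ≫ x ≫ β = q • 𝟙 (𝟙_ C) := by
  let _ := M.dual X hX
  obtain ⟨q, hq⟩ := M.unit_smul (α ≫ x ≫ flat α)
  refine ⟨flat α, q, ?_, hq⟩
  rintro rfl
  apply h
  rw [zero_smul] at hq
  rw [← hq, Motives.inter, flat, tensorHom_def']
  simp

end Basic

section Main

variable [CharZero K] [MonoidalPreadditive C] [MonoidalLinear ℚ C]

lemma Motives.corr_add (M : Motives k C) {X Y : Sch k} (hX : M.IsVar X) (hY : M.IsVar Y)
    (z z' : Chow (prod X Y).left) :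
    M.corr hX hY (z + z') = M.corr hX hY z + M.corr hX hY z' := by
  let _ := M.dual X hX
  have h : ∀ z, M.corr hX hY z = (ρ_ (M.h X)).inv ≫ (M.h X ◁
      ((M.cycles _ (M.isVar_prod X Y hX hY)).symm z ≫ (M.hprod X Y hX hY).hom) ≫
      (α_ _ _ _).inv ≫ (M.dual X hX).evaluation ▷ (M.h Y) ≫ (λ_ _).hom) := by
    intro z
    simp only [Motives.corr, Equiv.trans_apply, Iso.homCongr_apply, Iso.refl_inv, Iso.refl_hom,
      Category.comp_id, Category.id_comp]
    rfl
  rw [h, h, h, map_add, Preadditive.add_comp, MonoidalPreadditive.whiskerLeft_add,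
    Preadditive.add_comp, Preadditive.comp_add]

lemma Motives.ring_add (M : Motives k C) {X : Sch k} (hX : M.IsVar X)
    (z z' : Chow (prod X X).left) :
    M.ring hX (z + z') = M.ring hX z + M.ring hX z' := M.corr_add hX hX z z'

lemma Motives.hasLCK_iff (M : Motives k C) (R : SuperRealisation C K) {X : Sch k}
    (hX : M.IsVar X) {W : Module.End K (M.Coh R X)} (hW : ⨆ i : ℤ, W.eigenspace (i : K) = ⊤)
    {e : Chow (prod X X).left} {N : ℕ} (hN : M.ring hX e ^ N = 0) :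
    (∃ z, Solves R.H (M.ring hX e) z
      (ModuleCat.ofHom W : R.H.obj (M.h X) ⟶ R.H.obj (M.h X))) ↔ M.HasLCK R hX W e N := by
  refine (JM.exists_dcm_iff (F := R.H) (e := M.ring hX e) (N := N)
    (W := (ModuleCat.ofHom W : R.H.obj (M.h X) ⟶ R.H.obj (M.h X))) hN hW).trans ?_
  have h3 : ∀ a : CategoryTheory.End (M.h X), M.ring hX ((M.corr hX hX).symm a) = a :=
    fun a => Equiv.apply_symm_apply _ _
  have h4 : ∀ a : CategoryTheory.End (M.h X), M.corr hX hX ((M.corr hX hX).symm a) = a :=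
    fun a => Equiv.apply_symm_apply _ _
  constructor
  · rintro ⟨π, f, D, hr⟩
    refine ⟨fun i => (M.corr hX hX).symm (π i), (M.corr hX hX).symm f, ⟨?_, ?_, ?_⟩, ?_, ?_, ?_⟩
    · simp only [h3]
      exact D.mul
    · simp only [h3]
      exact D.sum
    · simp only [Motives.coh, h4]
      exact hr
    · simp only [h3]
      exact D.raise
    · simp only [h3]
      exact D.lower
    · simp only [h3, Ring.lie_def]
      exact D.lie
  · rintro ⟨π, f, ⟨h5, h6, h7⟩, h8, h9, h10⟩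
    exact ⟨fun i => M.ring hX (π i), M.ring hX f, ⟨h5, h6, h8, h9, h10⟩, h7⟩

lemma Motives.hasLCK_solves (M : Motives k C) (R : SuperRealisation C K) {X : Sch k}
    (hX : M.IsVar X) {W : Module.End K (M.Coh R X)} (hW : ⨆ i : ℤ, W.eigenspace (i : K) = ⊤)
    {e : Chow (prod X X).left} {N : ℕ} (h : M.HasLCK R hX W e N) :
    ∃ z, Solves R.H (M.ring hX e) z
      (ModuleCat.ofHom W : R.H.obj (M.h X) ⟶ R.H.obj (M.h X)) := by
  obtain ⟨π, f, ⟨h5, h6, h7⟩, h8, h9, h10⟩ := h
  exact ⟨M.ring hX f, Dcm.solves (F := R.H) (N := N) (π := fun i => M.ring hX (π i))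
    (W := (ModuleCat.ofHom W : R.H.obj (M.h X) ⟶ R.H.obj (M.h X)))
    ⟨h5, h6, h8, h9, h10⟩ h7 hW⟩

lemma Motives.ring_box (M : Motives k C) {X Y : Sch k} (hX : M.IsVar X) (hY : M.IsVar Y)
    (e : Chow (prod X X).left) (e' : Chow (prod Y Y).left) :
    M.ring (M.isVar_prod X Y hX hY) (M.box hX hY e (M.diag hY) + M.box hX hY (M.diag hX) e') =
      lft (M.hprod X Y hX hY) (M.ring hX e) + rgt (M.hprod X Y hX hY) (M.ring hY e') := by
  rw [M.ring_add]
  have h1 : M.ring (M.isVar_prod X Y hX hY) (M.box hX hY e (M.diag hY)) =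
      lft (M.hprod X Y hX hY) (M.ring hX e) := by
    refine (Equiv.apply_symm_apply _ _).trans ?_
    have h2 : M.corr hY hY (M.diag hY) = 𝟙 _ := Equiv.apply_symm_apply _ _
    rw [h2, tensorHom_id]
    rfl
  have h3 : M.ring (M.isVar_prod X Y hX hY) (M.box hX hY (M.diag hX) e') =
      rgt (M.hprod X Y hX hY) (M.ring hY e') := by
    refine (Equiv.apply_symm_apply _ _).trans ?_
    have h2 : M.corr hX hX (M.diag hX) = 𝟙 _ := Equiv.apply_symm_apply _ _
    rw [h2, id_tensorHom]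
    rfl
  rw [h1, h3]

lemma Motives.isSumW (M : Motives k C) (R : SuperRealisation C K) {X Y : Sch k}
    (hX : M.IsVar X) (hY : M.IsVar Y) {W : Module.End K (M.Coh R X)}
    {W' : Module.End K (M.Coh R Y)} {W'' : Module.End K (M.Coh R (prod X Y))}
    (h : M.IsSumWeight R hX hY W W' W'') :
    IsSumW R.H (M.hprod X Y hX hY) (ModuleCat.ofHom W : R.H.obj (M.h X) ⟶ R.H.obj (M.h X))
      (ModuleCat.ofHom W' : R.H.obj (M.h Y) ⟶ R.H.obj (M.h Y))
      (ModuleCat.ofHom W'' : R.H.obj (M.h (prod X Y)) ⟶ R.H.obj (M.h (prod X Y))) := by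
  apply ModuleCat.hom_ext
  apply TensorProduct.ext'
  intro x y
  exact (h x y).trans (map_add (kun R.H (M.hprod X Y hX hY)).hom
    ((show R.H.obj (M.h X) from W x) ⊗ₜ[K] y)
    (x ⊗ₜ[K] (show R.H.obj (M.h Y) from W' y))).symm

lemma Motives.raise_map (M : Motives k C) (R : SuperRealisation C K) {X : Sch k}
    (hX : M.IsVar X) {W : Module.End K (M.Coh R X)} {e : Chow (prod X X).left}
    (h : M.Raises R hX W e) :
    R.H.map (M.ring hX e : M.h X ⟶ M.h X) ≫
      (ModuleCat.ofHom W : R.H.obj (M.h X) ⟶ R.H.obj (M.h X)) =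
      (ModuleCat.ofHom W : R.H.obj (M.h X) ⟶ R.H.obj (M.h X)) ≫
        R.H.map (M.ring hX e : M.h X ⟶ M.h X) + 2 • R.H.map (M.ring hX e : M.h X ⟶ M.h X) := by
  rw [Motives.Raises, Ring.lie_def, sub_eq_iff_eq_add'] at h
  apply ModuleCat.hom_ext
  refine Eq.trans h ?_
  rw [two_mul]
  change _ = M.coh R hX hX e * W + (2 • M.coh R hX hX e)
  rw [two_smul]

/-- The exterior product of two varieties with decompositions, and its factors. -/
theorem Motives.lck_prod (M : Motives k C) (R : SuperRealisation C K) {X Y : Sch k}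
    (hX : M.IsVar X) (hY : M.IsVar Y) {W : Module.End K (M.Coh R X)} (hW : M.IsWeight R hX W)
    {W' : Module.End K (M.Coh R Y)} (hW' : M.IsWeight R hY W')
    {W'' : Module.End K (M.Coh R (prod X Y))} (hs : ⨆ i : ℤ, W''.eigenspace (i : K) = ⊤)
    (hW'' : M.IsSumWeight R hX hY W W' W'')
    {e : Chow (prod X X).left} {e' : Chow (prod Y Y).left} {d d' : ℕ} {α : Chow X.left}
    {α' : Chow Y.left} (he : M.IsAmple R hX W e d α) (he' : M.IsAmple R hY W' e' d' α') :
    M.HasLCK R (M.isVar_prod X Y hX hY) W''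
      (M.box hX hY e (M.diag hY) + M.box hX hY (M.diag hX) e') (d + d' + 1) ↔
      M.LefschetzCK R hX W e (d + 1) ∧ M.LefschetzCK R hY W' e' (d' + 1) := by
  have hN : M.ring (M.isVar_prod X Y hX hY)
      (M.box hX hY e (M.diag hY) + M.box hX hY (M.diag hX) e') ^ (d + d' + 1) = 0 := by
    rw [M.ring_box]
    refine Commute.add_pow_eq_zero_of_add_le_succ_of_pow_eq_zero (m := d + 1) (n := d' + 1)
      (show Commute (lft (M.hprod X Y hX hY) (M.ring hX e)) (rgt (M.hprod X Y hX hY)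
        (M.ring hY e')) from lft_rgt _ _ _) ?_ ?_ (by omega)
    · rw [← map_pow, he.nil, map_zero]
    · rw [← map_pow, he'.nil, map_zero]
  have hS := M.isSumW R hX hY hW''
  rw [← M.lefschetzCK_iff_solves R hX hW he.symm he.nil,
    ← M.lefschetzCK_iff_solves R hY hW' he'.symm he'.nil]
  refine (M.hasLCK_iff R (M.isVar_prod X Y hX hY) hs hN).symm.trans ?_
  rw [M.ring_box]
  constructor
  · rintro ⟨z, hz⟩
    constructor
    · obtain ⟨β, q, hq0, hq⟩ := M.top_split hY he'.top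
      exact Solves.fst (F := R.H) hS hz hq0 ((M.cycles Y hY).symm α') β hq he'.nil
        (M.raise_map R hY he'.raise) (M.cls_comp R hY α' W' d' he'.base)
    · obtain ⟨β, q, hq0, hq⟩ := M.top_split hX he.top
      exact Solves.snd (F := R.H) hS hz hq0 ((M.cycles X hX).symm α) β hq he.nil
        (M.raise_map R hX he.raise) (M.cls_comp R hX α W d he.base)
  · rintro ⟨⟨z, hz⟩, ⟨z', hz'⟩⟩
    exact ⟨_, Solves.prod (F := R.H) hS hz hz'⟩

end Main

end Pool.Agent.U724.CH
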