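import Pool.Agent.U724.CH.KunF

/-!
# Decompositions of Lefschetz type of the base of a fibration
-/

set_option autoImplicit false

open CategoryTheory AlgebraicGeometry Limits MonoidalCategory Module
open Pool.Agent.Y112.SR Pool.Agent.U724.PH Pool.Agent.U724.JM

namespace Pool.Agent.U724.CH

universe u u' v w

variable {k : Type u} [Field k] {C : Type u'} [Category.{v} C] [Preadditive C]
  [MonoidalCategory C] [SymmetricCategory C] [Linear ℚ C] {K : Type w} [Field K]

variable [CharZero K] [MonoidalPreadditive C] [MonoidalLinear ℚ C]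

/-- The decompositions of Lefschetz type descend to the base of a fibration. -/
theorem Motives.lck_fib (M : Motives k C) (R : SuperRealisation C K) {X Z : Sch k}
    (hX : M.IsVar X) (hZ : M.IsVar Z) {W : Module.End K (M.Coh R X)} (hW : M.IsWeight R hX W)
    {WZ : Module.End K (M.Coh R Z)} (hs : ⨆ i : ℤ, WZ.eigenspace (i : K) = ⊤)
    {e : Chow (prod X X).left} (he : M.IsTranspose hX e e) {N : ℕ} (hN : M.ring hX e ^ N = 0)
    {η ξ : Chow (prod Z Z).left} {d : ℕ} {a : Chow (prod X Z).left}
    {b : Chow (prod Z X).left} (hf : M.IsFibred R hX hZ W WZ e η ξ d a b) {N' : ℕ}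
    (h : M.HasLCK R hZ WZ (η + ξ) N') : M.LefschetzCK R hX W e N := by
  obtain ⟨z, hz⟩ := M.hasLCK_solves R hZ hs h
  rw [M.ring_add] at hz
  rw [← M.lefschetzCK_iff_solves R hX hW he hN]
  obtain ⟨r, hr, hr2⟩ := hf.deg
  refine Solves.fib (F := R.H) (a := M.corr hX hZ a) (b := M.corr hZ hX b) (d := d) hz hr hr2
    hf.pull hf.push.symm hf.comm ?_ ?_ (M.raise_map R hZ hf.raise) ?_
  · rw [hf.nil]
    exact comp_zero
  · rw [hf.nil]
    exact zero_comp
  · apply ModuleCat.hom_ext
    apply LinearMap.ext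
    intro v
    refine Eq.trans (hf.real v) ?_
    rw [Nat.cast_smul_eq_nsmul]
    rfl

end Pool.Agent.U724.CH
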