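import Pool.Agent.U724.CH.Defs
import Pool.Agent.U724.PH.KimC

/-!
# Chow motives over a field
-/

set_option autoImplicit false

open CategoryTheory AlgebraicGeometry Limits MonoidalCategory Module Filter
open Pool.Agent.Y112.SR Pool.Agent.Y112.KD Pool.Agent.N64.AF Pool.Agent.U724.PH
open scoped ENNReal

namespace Pool.Agent.U724.CH

universe u u' v w

section

variable (k : Type u) [Field k] (C : Type u') [Category.{v} C] [Preadditive C]
  [MonoidalCategory C] [SymmetricCategory C] [Linear ℚ C]

/-- Chow motives over the field `k` (with correspondences of all degrees as morphisms): for a class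
of smooth proper schemes over `k` which is stable under products (for instance the smooth projective
ones), the motive `h (X)` is an object of the tensor category `C` which is dual to itself by a
symmetric pairing (the class of the diagonal), `h (X × Y) = h (X) ⊗ h (Y)`, the morphisms from the
unit object to `h (X)` are the elements of the Chow group of `X` (cycles of all dimensions with
rational coefficients), and the unit object is a direct summand of `h (X)` if `X` is not empty
(there is a zero-cycle of degree one). -/
structure Motives where
  /-- the varieties -/
  IsVar : Sch k → Prop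
  smooth (X : Sch k) : IsVar X → Smooth X.hom
  proper (X : Sch k) : IsVar X → IsProper X.hom
  isVar_pt : IsVar (pt k)
  isVar_prod (X Y : Sch k) : IsVar X → IsVar Y → IsVar (prod X Y)
  /-- the motive of a variety -/
  h : Sch k → C
  /-- the motive of the point is the unit object -/
  hpt : h (pt k) ≅ 𝟙_ C
  /-- the motive of the product of two varieties is the tensor product of their motives -/
  hprod (X Y : Sch k) : IsVar X → IsVar Y → (h (prod X Y) ≅ h X ⊗ h Y)
  /-- the motive of a variety is dual to itself -/
  dual (X : Sch k) : IsVar X → ExactPairing (h X) (h X)
  dual_symm (X : Sch k) (hX : IsVar X) : @SymPair C _ _ _ (h X) (dual X hX)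
  /-- the morphisms from the unit object to `h X` are the elements of the Chow group -/
  cycles (X : Sch k) : IsVar X → ((𝟙_ C ⟶ h X) ≃ₗ[ℚ] Chow X.left)
  split (X : Sch k) : IsVar X → Nonempty X.left →
    ∃ (i : 𝟙_ C ⟶ h X) (r : h X ⟶ 𝟙_ C), i ≫ r = 𝟙 (𝟙_ C)

end

end Pool.Agent.U724.CH
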