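import Pool.Agent.U724.CH.ObsDefs

/-!
# The law for the homologically trivial cycles modulo a family of subspaces stable under correspondences
-/

set_option autoImplicit false
set_option linter.unusedSectionVars false

open CategoryTheory AlgebraicGeometry Limits MonoidalCategory Module Filter
open Pool.Agent.Y112.SR Pool.Agent.Y112.KD Pool.Agent.N64.AF Pool.Agent.U724.PH
open Pool.Agent.U724.NT
open scoped ENNReal

namespace Pool.Agent.U724.CH

universe u u' v w t x y

variable {k : Type u} [Field k] {C : Type u'} [Category.{v} C] [Preadditive C]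
  [MonoidalCategory C] [SymmetricCategory C] [Linear ℚ C] {K : Type w} [Field K]

/-- The family extended to all objects. -/
noncomputable def Motives.Liftables.all {M : Motives k C} {R : SuperRealisation C K}
    (A : M.Liftables R) (Z : C) : Submodule ℚ (𝟙_ C ⟶ Z) where
  carrier := {α | ∀ (Y : Sch k) (hY : M.IsVar Y) (f : Z ⟶ M.h Y),
    M.cycles Y hY (α ≫ f) ∈ A.L Y hY}
  zero_mem' := fun Y hY f => by
    rw [zero_comp, map_zero]
    exact Submodule.zero_mem _
  add_mem' := fun {a b} ha hb Y hY f => by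
    rw [Preadditive.add_comp, map_add]
    exact Submodule.add_mem _ (ha Y hY f) (hb Y hY f)
  smul_mem' := fun c a ha Y hY f => by
    rw [Linear.smul_comp, map_smul]
    exact Submodule.smul_mem _ _ (ha Y hY f)

lemma Motives.Liftables.mem_all {M : Motives k C} {R : SuperRealisation C K}
    (A : M.Liftables R) {X : Sch k} (hX : M.IsVar X) {Z : C} (e : Z ≅ M.h X) {α : 𝟙_ C ⟶ Z} :
    α ∈ A.all Z ↔ M.cycles X hX (α ≫ e.hom) ∈ A.L X hX := by
  constructor
  · intro h
    exact h X hX e.hom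
  · intro h Y hY f
    have h1 := A.push X Y hX hY (e.inv ≫ f) _ h
    unfold Motives.push at h1
    rw [LinearEquiv.symm_apply_apply] at h1
    simpa using h1

variable [MonoidalPreadditive C] [RightRigidCategory C] [MonoidalLinear ℚ C] [Algebra ℚ K]

lemma Motives.Liftables.stab {M : Motives k C} {R : SuperRealisation C K}
    (A : M.Liftables R) : IsStab (homF ℚ (𝟙_ C)) A.all := by
  intro Y Z f α hα W hW g
  have h1 := hα W hW (f ≫ g)
  rw [← Category.assoc] at h1
  exact h1

/-- The images of the homologically trivial elements. -/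
noncomputable def Motives.Liftables.img {M : Motives k C} {R : SuperRealisation C K}
    (A : M.Liftables R) (hR : IsReal ℚ R) (Z : C) :
    Submodule ℚ ((quoS (homF ℚ (𝟙_ C)) A.all A.stab).obj Z) :=
  Submodule.map (A.all Z).mkQ (homSub hR (𝟙_ C) Z)

lemma Motives.Liftables.img_stab {M : Motives k C} {R : SuperRealisation C K}
    (A : M.Liftables R) (hR : IsReal ℚ R) :
    IsStab (quoS (homF ℚ (𝟙_ C)) A.all A.stab) (A.img hR) := by
  rintro Y Z f _ ⟨α, hα, rfl⟩
  refine ⟨α ≫ f, ?_, rfl⟩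
  change R.H.map (α ≫ f) = 0
  rw [R.H.map_comp, show R.H.map α = 0 from hα, zero_comp]

lemma Motives.Liftables.dim_img {M : Motives k C} {R : SuperRealisation C K}
    (A : M.Liftables R) (hR : IsReal ℚ R) {X : Sch k} (hX : M.IsVar X) {Z : C}
    (i : Z ≅ M.h X) : dimE ℚ (A.img hR Z) = dimE ℚ (A.obs hX) := by
  let e : (𝟙_ C ⟶ Z) ≃ₗ[ℚ] Chow X.left :=
    (Linear.homCongr ℚ (Iso.refl _) i) ≪≫ₗ M.cycles X hX
  have he : ∀ f, e f = M.cycles X hX (f ≫ i.hom) := by
    intro f
    simp [e, Linear.homCongr]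
  have h1 : (A.all Z).map (e : (𝟙_ C ⟶ Z) →ₗ[ℚ] Chow X.left) = A.L X hX := by
    ext z
    constructor
    · rintro ⟨f, hf, rfl⟩
      have h2 := (A.mem_all hX i).1 hf
      rw [← he] at h2
      exact h2
    · intro hz
      refine ⟨e.symm z, ?_, e.apply_symm_apply z⟩
      change e.symm z ∈ A.all Z
      rw [A.mem_all hX i, ← he, e.apply_symm_apply]
      exact hz
  have h2 : (homSub hR (𝟙_ C) Z).map (e : (𝟙_ C ⟶ Z) →ₗ[ℚ] Chow X.left) =
      M.homTriv R hX := by
    ext z
    constructor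
    · rintro ⟨f, hf, rfl⟩
      rw [M.mem_homTriv]
      change R.H.map ((M.cycles X hX).symm (e f)) = 0
      rw [he, LinearEquiv.symm_apply_apply, R.H.map_comp, show R.H.map f = 0 from hf, zero_comp]
    · intro hz
      rw [M.mem_homTriv] at hz
      refine ⟨(M.cycles X hX).symm z ≫ i.inv, ?_, ?_⟩
      · change R.H.map ((M.cycles X hX).symm z ≫ i.inv) = 0
        rw [R.H.map_comp, hz, zero_comp]
      · change e ((M.cycles X hX).symm z ≫ i.inv) = z
        rw [he, Category.assoc, i.inv_hom_id, Category.comp_id, LinearEquiv.apply_symm_apply]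
  let e' : ((𝟙_ C ⟶ Z) ⧸ A.all Z) ≃ₗ[ℚ] (Chow X.left ⧸ A.L X hX) :=
    Submodule.Quotient.equiv _ _ e h1
  have h3 : (Submodule.map (A.all Z).mkQ (homSub hR (𝟙_ C) Z)).map
      (e' : ((𝟙_ C ⟶ Z) ⧸ A.all Z) →ₗ[ℚ] (Chow X.left ⧸ A.L X hX)) = A.obs hX := by
    unfold Motives.Liftables.obs
    rw [← h2]
    ext q
    constructor
    · rintro ⟨_, ⟨α, hα, rfl⟩, rfl⟩
      exact ⟨e α, ⟨α, hα, rfl⟩, rfl⟩
    · rintro ⟨_, ⟨α, hα, rfl⟩, rfl⟩
      exact ⟨Submodule.Quotient.mk α, ⟨α, hα, rfl⟩, rfl⟩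
  exact dimE_congr ((e'.submoduleMap (Submodule.map (A.all Z).mkQ (homSub hR (𝟙_ C) Z))).trans
    (LinearEquiv.ofEq _ _ h3))

variable [IsAlgClosed K]

/-- The law. -/
theorem Motives.Liftables.law {M : Motives k C} {R : SuperRealisation C K}
    (A : M.Liftables R) {X : Sch k} (hX : M.IsVar X) (hne : Nonempty X.left)
    (hs : R.CPlus (M.h X)) :
    ∃ N : ℕ∞, HasLaw ℚ (M.h X) (fun n => dimE ℚ (A.obs (M.isVar_power hX n))) N ∧
      (N = 0 ↔ ∀ n, A.L (power X n) (M.isVar_power hX n) = M.homTriv R (M.isVar_power hX n)) ∧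
      ∀ (s : ℕ) (m r : Fin s → ℕ) (e : ∀ i, Chow (prod (power X (m i)) (power X (m i))).left),
        (∀ i, A.IsObstructed (M.isVar_power hX (m i)) (e i) (r i)) →
        (∀ i j, i ≠ j →
          M.NotIso (M.isVar_power hX (m i)) (M.isVar_power hX (m j)) (e i) (e j)) →
          ((∑ i, r i : ℕ) : ℕ∞) ≤ N := by
  let _ := M.dual X hX
  have h := M.isPow (R := R) hX hne hs
  obtain ⟨N, h1, h2, h3⟩ := PH.simple_sum_law h
    (sub (quoS (homF ℚ (𝟙_ C)) A.all A.stab) (A.img h.real) (A.img_stab h.real))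
  have hd : ∀ n, dimE ℚ ((sub (quoS (homF ℚ (𝟙_ C)) A.all A.stab) (A.img h.real)
      (A.img_stab h.real)).obj (tp (M.h X) n)) = dimE ℚ (A.obs (M.isVar_power hX n)) :=
    fun n => A.dim_img h.real (M.isVar_power hX n) (M.hpow hX n)
  refine ⟨N, ?_, ?_, ?_⟩
  · have h4 : (fun n => dimE ℚ ((sub (quoS (homF ℚ (𝟙_ C)) A.all A.stab) (A.img h.real)
        (A.img_stab h.real)).obj (tp (M.h X) n))) =
        fun n => dimE ℚ (A.obs (M.isVar_power hX n)) := funext hd
    rw [← h4]
    exact h1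
  · rw [h2]
    refine forall_congr' fun n => ?_
    rw [← dimE_zero_iff (Λ := ℚ), hd n]
    rw [dimE_zero_iff, Submodule.subsingleton_iff_eq_bot]
    unfold Motives.Liftables.obs
    rw [← LinearMap.le_ker_iff_map, Submodule.ker_mkQ]
    exact ⟨fun h5 => le_antisymm (A.le _ _) h5, fun h5 => h5.ge⟩
  · intro s m r e hbad ho
    have he := fun i => (hbad i).simple
    have hz := fun i => (hbad i).cls
    let φ : ∀ n, tp (M.h X) n ≅ M.h (power X n) := M.hpow hX
    let E : ∀ i, M.h (power X (m i)) ⟶ M.h (power X (m i)) := fun i =>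
      M.corr (M.isVar_power hX (m i)) (M.isVar_power hX (m i)) (e i)
    refine h3 s m r (fun i => (φ (m i)).hom ≫ E i ≫ (φ (m i)).inv) (fun i =>
      ⟨numIdem_conj h.real _ (he i).idem, isRk_conj R _ (he i).rank,
        numSimple_conj h.real _ (he i).simple⟩) ?_ ?_
    · intro i j hij u
      have h4 := NumTriv.comp h.real (ho i j hij ((φ (m i)).inv ≫ u ≫ (φ (m j)).hom))
        (φ (m i)).hom (φ (m j)).inv
      have h5 : ((φ (m i)).hom ≫ E i ≫ (φ (m i)).inv) ≫ u ≫
          ((φ (m j)).hom ≫ E j ≫ (φ (m j)).inv) = (φ (m i)).hom ≫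
            (E i ≫ ((φ (m i)).inv ≫ u ≫ (φ (m j)).hom) ≫ E j) ≫ (φ (m j)).inv := by
        simp only [Category.assoc]
      rw [h5]
      exact h4
    · intro i
      obtain ⟨z, hz, hzL, hez⟩ := hz i
      have hXm := M.isVar_power hX (m i)
      let α : 𝟙_ C ⟶ tp (M.h X) (m i) := (M.cycles _ hXm).symm z ≫ (φ (m i)).inv
      have hα : α ∈ homSub h.real (𝟙_ C) (tp (M.h X) (m i)) := by
        change R.H.map ((M.cycles _ hXm).symm z ≫ (φ (m i)).inv) = 0
        rw [R.H.map_comp, (M.mem_homTriv R hXm).1 hz, zero_comp]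
      let z' : (sub (quoS (homF ℚ (𝟙_ C)) A.all A.stab) (A.img h.real)
          (A.img_stab h.real)).obj (tp (M.h X) (m i)) :=
        (⟨(Submodule.Quotient.mk α : (𝟙_ C ⟶ tp (M.h X) (m i)) ⧸ A.all (tp (M.h X) (m i))),
          ⟨α, hα, rfl⟩⟩ : A.img h.real (tp (M.h X) (m i)))
      refine ⟨z', ?_, ?_⟩
      · intro h6
        apply hzL
        have h7 : (Submodule.Quotient.mk α :
            (𝟙_ C ⟶ tp (M.h X) (m i)) ⧸ A.all (tp (M.h X) (m i))) = 0 := congrArg Subtype.val h6
        rw [Submodule.Quotient.mk_eq_zero, A.mem_all hXm (φ (m i)), Category.assoc,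
          (φ (m i)).inv_hom_id, Category.comp_id, LinearEquiv.apply_symm_apply] at h7
        exact h7
      · refine Subtype.ext ?_
        change (Submodule.Quotient.mk (α ≫ ((φ (m i)).hom ≫ E i ≫ (φ (m i)).inv)) :
          (𝟙_ C ⟶ tp (M.h X) (m i)) ⧸ A.all (tp (M.h X) (m i))) = Submodule.Quotient.mk α
        rw [Submodule.Quotient.eq, A.mem_all hXm (φ (m i))]
        have h8 : (α ≫ ((φ (m i)).hom ≫ E i ≫ (φ (m i)).inv) - α) ≫ (φ (m i)).hom =
            (M.cycles _ hXm).symm z ≫ E i - (M.cycles _ hXm).symm z := by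
          rw [Preadditive.sub_comp]
          simp only [α, Category.assoc, Iso.inv_hom_id, Category.comp_id, Iso.inv_hom_id_assoc]
        rw [h8, map_sub, LinearEquiv.apply_symm_apply]
        exact hez

end Pool.Agent.U724.CH
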