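import Pool.Agent.U724.CH.KerSum

/-!
# Families of cycles stable under correspondences: definitions
-/

set_option autoImplicit false

open CategoryTheory AlgebraicGeometry Limits MonoidalCategory
open Pool.Agent.Y112.SR

namespace Pool.Agent.U724.CH

universe u u' v w

variable {k : Type u} [Field k] {C : Type u'} [Category.{v} C] [Preadditive C]
  [MonoidalCategory C] [SymmetricCategory C] [Linear ℚ C] {K : Type w} [Field K]

/-- A family of spaces of homologically trivial cycles on all varieties (the liftable ones) which is
stable under correspondences. -/
structure Motives.Liftables (M : Motives k C) (R : SuperRealisation C K) where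
  /-- the spaces -/
  L (X : Sch k) : M.IsVar X → Submodule ℚ (Chow X.left)
  le (X : Sch k) (hX : M.IsVar X) : L X hX ≤ M.homTriv R hX
  push (X Y : Sch k) (hX : M.IsVar X) (hY : M.IsVar Y) (f : M.h X ⟶ M.h Y) (z : Chow X.left) :
    z ∈ L X hX → M.push hX hY f z ∈ L Y hY

/-- The space of the homologically trivial cycles on `X` modulo the liftable ones, in the space of all
cycles modulo the liftable ones. -/
noncomputable def Motives.Liftables.obs {M : Motives k C} {R : SuperRealisation C K}
    (A : M.Liftables R) {X : Sch k} (hX : M.IsVar X) : Submodule ℚ (Chow X.left ⧸ A.L X hX) :=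
  Submodule.map (A.L X hX).mkQ (M.homTriv R hX)

/-- The self-correspondence `e` of `X` is a simple part of rank `r` with a homologically trivial cycle `z`
which is not liftable and fixed by `e` modulo the liftable cycles. -/
structure Motives.Liftables.IsObstructed [MonoidalPreadditive C] [RightRigidCategory C]
    {M : Motives k C} {R : SuperRealisation C K} (A : M.Liftables R) {X : Sch k}
    (hX : M.IsVar X) (e : Chow (prod X X).left) (r : ℕ) : Prop where
  simple : M.IsSimplePart R hX e r
  cls : ∃ z ∈ M.homTriv R hX, z ∉ A.L X hX ∧ M.push hX hX (M.corr hX hX e) z - z ∈ A.L X hX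

end Pool.Agent.U724.CH
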