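import Pool.Agent.U724.PH.Main

/-!
# Symmetric self-dual objects: cycles, functionals, orthogonal direct summands
-/

set_option autoImplicit false
set_option linter.unusedSectionVars false
set_option backward.isDefEq.respectTransparency false
set_option backward.defeqAttrib.useBackward true

open CategoryTheory Limits MonoidalCategory Module
open Pool.Agent.Y112.SR Pool.Agent.Y112.KD Pool.Agent.N64.AF Pool.Agent.U724.PH
open Functor.LaxMonoidal Functor.OplaxMonoidal

namespace Pool.Agent.U724.CH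

universe v u w t

section Map

variable {C : Type u} [Category.{v} C] [MonoidalCategory C]
  {D : Type w} [Category.{t} D] [MonoidalCategory D] (F : C ⥤ D) [F.Monoidal]
  (X Y : C) [ExactPairing X Y]

/-- The coevaluation of the image of an exact pairing. -/
def coF : 𝟙_ D ⟶ F.obj X ⊗ F.obj Y := ε F ≫ F.map (η_ X Y) ≫ δ F X Y

/-- The evaluation of the image of an exact pairing. -/
def evF : F.obj Y ⊗ F.obj X ⟶ 𝟙_ D := μ F Y X ≫ F.map (ε_ X Y) ≫ η F

lemma zz1 : coF F X Y ▷ F.obj X ≫ (α_ _ _ _).hom ≫ F.obj X ◁ evF F X Y =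
    (λ_ (F.obj X)).hom ≫ (ρ_ (F.obj X)).inv := by
  rw [← cancel_mono (ρ_ (F.obj X)).hom]
  simp only [Category.assoc, Iso.inv_hom_id, Category.comp_id]
  have h3 : (ρ_ (F.obj X)).hom = F.obj X ◁ ε F ≫ μ F X (𝟙_ C) ≫ F.map (ρ_ X).hom :=
    Functor.LaxMonoidal.right_unitality F X
  rw [h3, coF, evF]
  simp only [comp_whiskerRight, MonoidalCategory.whiskerLeft_comp, Category.assoc]
  have h4 : F.obj X ◁ η F ≫ F.obj X ◁ ε F = 𝟙 _ := by
    rw [← MonoidalCategory.whiskerLeft_comp, Functor.Monoidal.η_ε,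
      MonoidalCategory.whiskerLeft_id]
  rw [reassoc_of% h4, μ_natural_right_assoc]
  have h5 := Functor.LaxMonoidal.associativity F X Y X
  have h6 : (δ F X Y ▷ F.obj X) ≫ (μ F X Y ▷ F.obj X) = 𝟙 _ := by
    rw [← comp_whiskerRight, Functor.Monoidal.δ_μ, id_whiskerRight]
  rw [← reassoc_of% h5, reassoc_of% h6, μ_natural_left_assoc, ← Functor.map_comp,
    ← Functor.map_comp, ← Functor.map_comp]
  have h7 : η_ X Y ▷ X ≫ (α_ X Y X).hom ≫ X ◁ ε_ X Y ≫ (ρ_ X).hom = (λ_ X).hom := by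
    rw [ExactPairing.evaluation_coevaluation_assoc]
    simp
  rw [h7]
  exact (Functor.LaxMonoidal.left_unitality F X).symm

end Map

section Elem

variable {C : Type u} [Category.{v} C] [MonoidalCategory C]
  {D : Type w} [Category.{t} D] [Preadditive D] [MonoidalCategory D] [MonoidalPreadditive D]
  (F : C ⥤ D) [F.Monoidal] (X Y : C) [ExactPairing X Y]

lemma elem_zero (v : 𝟙_ D ⟶ F.obj X) (hv : F.obj Y ◁ v ≫ evF F X Y = 0) : v = 0 := by
  have h1 : v = v ≫ (λ_ (F.obj X)).inv ≫ (coF F X Y ▷ F.obj X ≫ (α_ _ _ _).hom ≫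
      F.obj X ◁ evF F X Y) ≫ (ρ_ (F.obj X)).hom := by
    rw [zz1]
    simp
  rw [h1]
  have h2 : v ≫ (λ_ (F.obj X)).inv = (λ_ (𝟙_ D)).inv ≫ 𝟙_ D ◁ v := by simp
  rw [reassoc_of% h2]
  simp only [Category.assoc]
  rw [whisker_exchange_assoc, MonoidalCategory.tensor_whiskerLeft]
  simp only [Category.assoc, Iso.inv_hom_id_assoc]
  rw [← MonoidalCategory.whiskerLeft_comp_assoc, hv, MonoidalPreadditive.whiskerLeft_zero,
    zero_comp, comp_zero, comp_zero, comp_zero]

end Elem

section Flat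

variable {C : Type u} [Category.{v} C] [MonoidalCategory C]

/-- The functional attached to a cycle on a self-dual object. -/
def flat {T : C} [ExactPairing T T] (x : 𝟙_ C ⟶ T) : T ⟶ 𝟙_ C :=
  (λ_ T).inv ≫ x ▷ T ≫ ε_ T T

variable {D : Type w} [Category.{t} D] [MonoidalCategory D] (F : C ⥤ D) [F.Monoidal]

lemma ev_flat {T : C} [ExactPairing T T] (x : 𝟙_ C ⟶ T) :
    (ε F ≫ F.map x) ▷ F.obj T ≫ evF F T T = (λ_ (F.obj T)).hom ≫ F.map (flat x) ≫ η F := by
  rw [Functor.LaxMonoidal.left_unitality F T, evF, flat]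
  simp only [comp_whiskerRight, Category.assoc, Functor.map_comp]
  rw [μ_natural_left_assoc, ← Functor.map_comp_assoc, ← Functor.map_comp_assoc]
  simp

end Flat

end Pool.Agent.U724.CH
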