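import Pool.Agent.U724.CH.Mot

/-!
# The realisation of the Chow motives over a field
-/

set_option autoImplicit false

open CategoryTheory AlgebraicGeometry Limits MonoidalCategory Module Filter
open Pool.Agent.Y112.SR Pool.Agent.Y112.KD Pool.Agent.N64.AF Pool.Agent.U724.PH
open scoped ENNReal

namespace Pool.Agent.U724.CH

universe u u' v w t x y

lemma dimE_congr {Λ : Type t} [Field Λ] {V : Type x} {W : Type y} [AddCommGroup V] [Module Λ V]
    [AddCommGroup W] [Module Λ W] (e : V ≃ₗ[Λ] W) : dimE Λ V = dimE Λ W := by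
  have h := e.lift_rank_eq
  have h2 := congrArg Cardinal.toENat h
  rw [dimE, dimE]
  simpa only [Cardinal.toENat_lift] using h2

variable {k : Type u} [Field k] {C : Type u'} [Category.{v} C] [Preadditive C]
  [MonoidalCategory C] [SymmetricCategory C] [Linear ℚ C]

lemma Motives.isVar_power (M : Motives k C) {X : Sch k} (hX : M.IsVar X) :
    ∀ n, M.IsVar (power X n)
  | 0 => M.isVar_pt
  | n + 1 => M.isVar_prod _ _ (M.isVar_power hX n) hX

/-- `h (X) ^ n = h (X ^ n)`. -/
noncomputable def Motives.hpow (M : Motives k C) {X : Sch k} (hX : M.IsVar X) :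
    ∀ n, tp (M.h X) n ≅ M.h (power X n)
  | 0 => M.hpt.symm
  | n + 1 => (MonoidalCategory.tensorIso (M.hpow hX n) (Iso.refl _)) ≪≫
      (M.hprod _ _ (M.isVar_power hX n) hX).symm

/-- The Chow group of the point is generated by one element. -/
lemma chow_pt (k : Type u) [Field k] : ∃ g : Chow (pt k).left, ∀ z : Chow (pt k).left,
    ∃ q : ℚ, z = q • g := by
  have hs : Subsingleton (pt k).left := by
    change Subsingleton (PrimeSpectrum k)
    infer_instance
  obtain ⟨x⟩ : Nonempty (pt k).left := by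
    change Nonempty (PrimeSpectrum k)
    infer_instance
  refine ⟨Submodule.Quotient.mk (Finsupp.single x 1), fun z => ?_⟩
  obtain ⟨c, rfl⟩ := Submodule.Quotient.mk_surjective _ z
  refine ⟨c x, ?_⟩
  change _ = Submodule.Quotient.mk (c x • Finsupp.single x (1 : ℚ))
  congr 1
  ext y
  rw [Subsingleton.elim y x]
  simp

variable {K : Type w} [Field K] [Algebra ℚ K]

lemma map_smul_rat (R : SuperRealisation C K) {X Y : C} (a : ℚ) (f : X ⟶ Y) :
    R.H.map (a • f) = algebraMap ℚ K a • R.H.map f := by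
  let φ : (X ⟶ Y) →+ (R.H.obj X →ₗ[K] R.H.obj Y) :=
    { toFun := fun f => (R.H.map f).hom
      map_zero' := by simp
      map_add' := fun f g => by simp }
  let _ : Module ℚ (R.H.obj X →ₗ[K] R.H.obj Y) := Module.compHom _ (algebraMap ℚ K)
  have h := map_rat_smul φ a f
  ext1
  exact h

/-- The class in the cohomology of `X` of a cycle `z` on `X`: the realisation of the morphism
`𝟙 → h (X)` given by `z`. -/
noncomputable def Motives.cl (M : Motives k C) (R : SuperRealisation C K) {X : Sch k} (hX : M.IsVar X)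
    (z : Chow X.left) : R.H.obj (𝟙_ C) ⟶ R.H.obj (M.h X) :=
  R.H.map ((M.cycles X hX).symm z)

/-- The homologically trivial cycles on `X`: the class in the cohomology is zero. -/
noncomputable def Motives.homTriv (M : Motives k C) (R : SuperRealisation C K) {X : Sch k}
    (hX : M.IsVar X) : Submodule ℚ (Chow X.left) :=
  Submodule.span ℚ {z | M.cl R hX z = 0}

lemma Motives.mem_homTriv (M : Motives k C) (R : SuperRealisation C K) {X : Sch k}
    (hX : M.IsVar X) {z : Chow X.left} :
    z ∈ M.homTriv R hX ↔ R.H.map ((M.cycles X hX).symm z) = 0 := by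
  refine ⟨fun hz => ?_, fun hz => Submodule.subset_span hz⟩
  refine Submodule.span_induction (p := fun z _ => R.H.map ((M.cycles X hX).symm z) = 0)
    (fun z hz => hz) ?_ ?_ ?_ hz
  · rw [map_zero, R.H.map_zero]
  · intro a b _ _ ha hb
    rw [map_add, Functor.map_add, ha, hb, add_zero]
  · intro c a _ ha
    rw [map_smul, map_smul_rat, ha, smul_zero]

/-- The dimension of the cohomology of `X`. -/
noncomputable def Motives.betti (M : Motives k C) (R : SuperRealisation C K) (X : Sch k) : ℕ :=
  finrank K (R.H.obj (M.h X))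

/-- The dimension of the space of the homologically trivial cycles on `X ^ n`. -/
noncomputable def Motives.homDim (M : Motives k C) (R : SuperRealisation C K) {X : Sch k}
    (hX : M.IsVar X) (n : ℕ) : ℝ≥0∞ :=
  ((dimE ℚ (M.homTriv R (M.isVar_power hX n)) : ℕ∞) : ℝ≥0∞)

lemma Motives.isReal (M : Motives k C) (R : SuperRealisation C K) : IsReal ℚ R where
  unit := by
    intro c
    obtain ⟨g, hg⟩ := chow_pt k
    let e : (𝟙_ C ⟶ 𝟙_ C) ≃ₗ[ℚ] Chow (pt k).left :=
      (Linear.homCongr ℚ (Iso.refl _) M.hpt.symm) ≪≫ₗ M.cycles (pt k) M.isVar_pt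
    obtain ⟨q, hq⟩ := hg (e c)
    obtain ⟨r, hr⟩ := hg (e (𝟙 _))
    by_cases h0 : r = 0
    · have h1 : (𝟙 (𝟙_ C)) = 0 := e.injective (by rw [hr, h0, zero_smul, map_zero])
      exact ⟨0, by rw [← Category.comp_id c, h1, comp_zero, zero_smul]⟩
    · refine ⟨q / r, e.injective ?_⟩
      rw [map_smul, hq, hr, smul_smul, div_mul_cancel₀ _ h0]
  lin := fun a f => map_smul_rat R a f

lemma Motives.isPow [MonoidalPreadditive C] [MonoidalLinear ℚ C] [RightRigidCategory C]
    (M : Motives k C) {R : SuperRealisation C K} {X : Sch k}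
    (hX : M.IsVar X) (hne : Nonempty X.left) (hs : R.CPlus (M.h X)) : IsPow ℚ R (M.h X) where
  real := M.isReal R
  cplus := hs
  retract := M.split X hX hne

lemma Motives.dim_homTriv [MonoidalPreadditive C] [MonoidalLinear ℚ C] [RightRigidCategory C]
    (M : Motives k C) (R : SuperRealisation C K) {X : Sch k} (hX : M.IsVar X) {Z : C}
    (i : Z ≅ M.h X) (hR : IsReal ℚ R) :
    dimE ℚ (homSub hR (𝟙_ C) Z) = dimE ℚ (M.homTriv R hX) := by
  let e : (𝟙_ C ⟶ Z) ≃ₗ[ℚ] Chow X.left :=
    (Linear.homCongr ℚ (Iso.refl _) i) ≪≫ₗ M.cycles X hX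
  have he : ∀ f, (M.cycles X hX).symm (e f) = f ≫ i.hom := by
    intro f
    simp [e, Linear.homCongr]
  refine dimE_congr ((e.submoduleMap (homSub hR (𝟙_ C) Z)).trans (LinearEquiv.ofEq _ _ ?_))
  ext z
  constructor
  · rintro ⟨f, hf, rfl⟩
    rw [M.mem_homTriv]
    change R.H.map ((M.cycles X hX).symm (e f)) = 0
    rw [he, R.H.map_comp, show R.H.map f = 0 from hf, zero_comp]
  · intro hz
    rw [M.mem_homTriv] at hz
    refine ⟨e.symm z, ?_, e.apply_symm_apply z⟩
    change R.H.map (e.symm z) = 0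
    have h1 : e.symm z ≫ i.hom = (M.cycles X hX).symm z := by
      rw [← he, e.apply_symm_apply]
    have h2 : e.symm z = (M.cycles X hX).symm z ≫ i.inv := by
      rw [← h1, Category.assoc, i.hom_inv_id, Category.comp_id]
    rw [h2, R.H.map_comp, show R.H.map ((M.cycles X hX).symm z) = 0 from hz, zero_comp]

end Pool.Agent.U724.CH
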