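import Pool.Agent.U724.CH.Fil
import Pool.Agent.U724.CH.Kun
import Pool.Agent.U724.PH.Simple

/-!
# The law for homologically trivial cycles and simple parts of the motive
-/

set_option autoImplicit false

open CategoryTheory AlgebraicGeometry Limits MonoidalCategory Module Filter
open Pool.Agent.Y112.SR Pool.Agent.Y112.KD Pool.Agent.N64.AF Pool.Agent.U724.PH
open Pool.Agent.U724.NT
open Pool.Agent.Y116.MT (tr)
open scoped ENNReal

namespace Pool.Agent.U724.CH

universe u u' v w t x y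

variable {k : Type u} [Field k] {C : Type u'} [Category.{v} C] [Preadditive C]
  [MonoidalCategory C] [MonoidalPreadditive C] [SymmetricCategory C] [RightRigidCategory C]
  [Linear ℚ C] {K : Type w} [Field K]

/-- The self-correspondence `e` of `X` is modulo numerical equivalence a projector of rank `r` (the
trace on the cohomology of `X`) onto a simple direct summand: it is idempotent modulo numerical
equivalence, and each `e ∘ u ∘ e` which is not numerically trivial has an inverse `v` modulo numerical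
equivalence. -/
structure Motives.IsSimplePart (M : Motives k C) (R : SuperRealisation C K) {X : Sch k}
    (hX : M.IsVar X) (e : Chow (prod X X).left) (r : ℕ) : Prop where
  idem : NumIdem (M.corr hX hX e)
  rank : IsRk R (M.corr hX hX e) r
  simple : NumSimple (M.corr hX hX e)

variable [MonoidalLinear ℚ C] [Algebra ℚ K] [IsAlgClosed K]

lemma numTriv_conj {R : SuperRealisation C K} (hR : IsReal ℚ R) {Y Z : C} (i : Y ≅ Z)
    {u : Z ⟶ Z} (h : NumTriv u) : NumTriv (i.hom ≫ u ≫ i.inv) :=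
  NumTriv.comp hR h i.hom i.inv

lemma numTriv_conj' {R : SuperRealisation C K} (hR : IsReal ℚ R) {Y Z : C} (i : Y ≅ Z)
    {u : Z ⟶ Z} (h : NumTriv (i.hom ≫ u ≫ i.inv)) : NumTriv u := by
  have h1 := NumTriv.comp hR h i.inv i.hom
  simpa using h1

/-- The law. -/
theorem Motives.simple_law (M : Motives k C) (R : SuperRealisation C K) {X : Sch k}
    (hX : M.IsVar X) (hne : Nonempty X.left) (hs : R.CPlus (M.h X)) :
    ∃ N : ℕ∞, HasLaw ℚ (M.h X) (fun n => dimE ℚ (M.homTriv R (M.isVar_power hX n))) N ∧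
      (N = 0 ↔ ∀ n, M.homTriv R (M.isVar_power hX n) = ⊥) ∧
      ∀ (e : Chow (prod X X).left) (r : ℕ), M.IsSimplePart R hX e r →
        (∃ x ∈ M.homTriv R hX, x ≠ 0 ∧ M.push hX hX (M.corr hX hX e) x = x) →
          (r : ℕ∞) ≤ N := by
  let _ := M.dual X hX
  have h := M.isPow (R := R) hX hne hs
  obtain ⟨N, h1, h2, h3⟩ := PH.simple_law h (cycF h.real)
  have hd : ∀ n, dimE ℚ ((cycF h.real).obj (tp (M.h X) n)) =
      dimE ℚ (M.homTriv R (M.isVar_power hX n)) := fun n =>
    M.dim_homTriv R (M.isVar_power hX n) (M.hpow hX n) h.real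
  refine ⟨N, ?_, ?_, ?_⟩
  · have h4 : (fun n => dimE ℚ ((cycF h.real).obj (tp (M.h X) n))) =
        fun n => dimE ℚ (M.homTriv R (M.isVar_power hX n)) := funext hd
    rw [← h4]
    exact h1
  · rw [h2]
    refine forall_congr' fun n => ?_
    rw [← dimE_zero_iff (Λ := ℚ), hd n]
    rw [dimE_zero_iff, Submodule.subsingleton_iff_eq_bot]
  · rintro e r ⟨he, hr, hsi⟩ ⟨z, hz, hz0, hez⟩
    let i : tp (M.h X) 1 ≅ M.h X := λ_ (M.h X)
    obtain ⟨E, hE⟩ : ∃ E : M.h X ⟶ M.h X, E = M.corr hX hX e := ⟨_, rfl⟩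
    rw [← hE] at he hr hsi hez
    refine h3 1 r (i.hom ≫ E ≫ i.inv) ?_ ?_ ?_ ?_
    · have h4 : (i.hom ≫ E ≫ i.inv) ≫ (i.hom ≫ E ≫ i.inv) - i.hom ≫ E ≫ i.inv =
          i.hom ≫ (E ≫ E - E) ≫ i.inv := by
        simp
      unfold NumIdem
      rw [h4]
      exact numTriv_conj h.real i he
    · have hf1 := R.finite (tp (M.h X) 1)
      have hf2 := R.finite (M.h X)
      unfold IsRk at hr ⊢
      rw [← hr, R.H.map_comp, R.H.map_comp]
      change LinearMap.trace K _ ((R.H.map i.inv).hom ∘ₗ ((R.H.map E).hom ∘ₗ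
        (R.H.map i.hom).hom)) = _
      rw [LinearMap.trace_comp_comm']
      congr 1
      have h4 : R.H.map i.inv ≫ R.H.map i.hom = 𝟙 _ := by
        rw [← R.H.map_comp, i.inv_hom_id, R.H.map_id]
      have h5 : (R.H.map i.hom).hom ∘ₗ (R.H.map i.inv).hom = LinearMap.id :=
        congrArg ModuleCat.Hom.hom h4
      rw [LinearMap.comp_assoc, h5, LinearMap.comp_id]
    · intro u hu
      have h4 : i.hom ≫ (E ≫ (i.inv ≫ u ≫ i.hom) ≫ E) ≫ i.inv =
          (i.hom ≫ E ≫ i.inv) ≫ u ≫ (i.hom ≫ E ≫ i.inv) := by simp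
      have h5 : ¬ NumTriv (E ≫ (i.inv ≫ u ≫ i.hom) ≫ E) := by
        intro h6
        apply hu
        rw [← h4]
        exact numTriv_conj h.real i h6
      obtain ⟨v, hv⟩ := hsi _ h5
      refine ⟨i.hom ≫ v ≫ i.inv, ?_⟩
      have h6 : ((i.hom ≫ E ≫ i.inv) ≫ u ≫ (i.hom ≫ E ≫ i.inv)) ≫ (i.hom ≫ v ≫ i.inv) -
          i.hom ≫ E ≫ i.inv = i.hom ≫ ((E ≫ (i.inv ≫ u ≫ i.hom) ≫ E) ≫ v - E) ≫ i.inv := by
        simp
      rw [h6]
      exact numTriv_conj h.real i hv
    · have h4 : R.H.map ((M.cycles X hX).symm z) = 0 := (M.mem_homTriv R hX).1 hz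
      have h5 : (M.cycles X hX).symm z ≫ E = (M.cycles X hX).symm z := by
        apply (M.cycles X hX).injective
        rw [LinearEquiv.apply_symm_apply]
        exact hez
      let z' : homSub h.real (𝟙_ C) (tp (M.h X) 1) := ⟨(M.cycles X hX).symm z ≫ i.inv, by
        change R.H.map ((M.cycles X hX).symm z ≫ i.inv) = 0
        rw [R.H.map_comp, h4, zero_comp]⟩
      refine ⟨z', ?_, ?_⟩
      · intro h6
        apply hz0
        have h7 : (M.cycles X hX).symm z ≫ i.inv = 0 := congrArg Subtype.val h6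
        have h8 : (M.cycles X hX).symm z = 0 := by
          rw [← Category.comp_id ((M.cycles X hX).symm z), ← i.inv_hom_id, ← Category.assoc, h7,
            zero_comp]
        exact (M.cycles X hX).symm.injective (by rw [h8, map_zero])
      · refine Subtype.ext ?_
        change ((M.cycles X hX).symm z ≫ i.inv) ≫ (i.hom ≫ E ≫ i.inv) =
          (M.cycles X hX).symm z ≫ i.inv
        rw [Category.assoc, Iso.inv_hom_id_assoc, ← Category.assoc, h5]

end Pool.Agent.U724.CH
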